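import Pool.Agent.Helper91.AV.Def5

/-! The comparison of the two definitions of the 2-Selmer group (module for helper91). -/

set_option autoImplicit false

open IsDedekindDomain NumberField
open scoped Classical

namespace Pool.Agent.Helper45.AV

open Pool.Agent.TH841.SH.D (Gal Coch)
open Pool.Agent.TH115.GD (Sep Comp rs)

section

variable {F : Type} [Field F] (W : WeierstrassCurve F)

/-- Points in the sense of the first definition. -/
abbrev PD (L : Type) [Field L] [Algebra F L] : Type := Pool.Agent.TH841.SH.D.Pt W L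

/-- Points in the sense of the second definition. -/
abbrev PG (L : Type) [Field L] [Algebra F L] : Type := Pool.Agent.TH115.GD.Pt W L

/-- The identity. -/
noncomputable def br (L : Type) [Field L] [Algebra F L] : PD W L ≃+ PG W L where
  toFun P := P
  invFun P := P
  left_inv _ := rfl
  right_inv _ := rfl
  map_add' _ _ := rfl

/-- Points along a homomorphism, from the first to the second definition. -/
noncomputable def tr {L M : Type} [Field L] [Algebra F L] [Field M] [Algebra F M] (φ : L →ₐ[F] M) :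
    PD W L →+ PG W M := (Pool.Agent.TH115.GD.act W φ).comp (br W L).toAddMonoidHom

/-- The same in the other direction. -/
noncomputable def tr' {L M : Type} [Field L] [Algebra F L] [Field M] [Algebra F M]
    (φ : L →ₐ[F] M) : PG W L →+ PD W M :=
  (br W M).symm.toAddMonoidHom.comp (Pool.Agent.TH115.GD.act W φ)

variable {W}
variable {L M N : Type} [Field L] [Algebra F L] [Field M] [Algebra F M] [Field N] [Algebra F N]

lemma tr_actD (ψ : M →ₐ[F] N) (φ : L →ₐ[F] M) (P : PD W L) :
    tr W ψ (Pool.Agent.TH841.SH.D.act W φ P) = tr W (ψ.comp φ) P :=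
  WeierstrassCurve.Affine.Point.map_map _ _ _

lemma actG_tr (ψ : M →ₐ[F] N) (φ : L →ₐ[F] M) (P : PD W L) :
    Pool.Agent.TH115.GD.act W ψ (tr W φ P) = tr W (ψ.comp φ) P :=
  WeierstrassCurve.Affine.Point.map_map _ _ _

lemma tr'_tr (ψ : M →ₐ[F] L) (φ : L →ₐ[F] M) (h : ψ.comp φ = AlgHom.id F L) (P : PD W L) :
    tr' W ψ (tr W φ P) = P := by
  have h1 : tr' W ψ (tr W φ P) = Pool.Agent.TH841.SH.D.act W (ψ.comp φ) P :=
    WeierstrassCurve.Affine.Point.map_map _ _ _
  rw [h1, h]
  cases P <;> rfl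

lemma actD_tr' (ψ : M →ₐ[F] N) (φ : L →ₐ[F] M) (P : PG W L) :
    Pool.Agent.TH841.SH.D.act W ψ (tr' W φ P) = tr' W (ψ.comp φ) P :=
  WeierstrassCurve.Affine.Point.map_map _ _ _

lemma tr'_actG (ψ : M →ₐ[F] N) (φ : L →ₐ[F] M) (P : PG W L) :
    tr' W ψ (Pool.Agent.TH115.GD.act W φ P) = tr' W (ψ.comp φ) P :=
  WeierstrassCurve.Affine.Point.map_map _ _ _

end

section

variable {F : Type} [Field F] (W : WeierstrassCurve F)

/-- The conjugate of an automorphism. -/
def cj {A B : Type} [Field A] [Field B] [Algebra F A] [Algebra F B] (e : A ≃ₐ[F] B)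
    (σ : A ≃ₐ[F] A) : B ≃ₐ[F] B := e.symm.trans (σ.trans e)

lemma cj_apply {A B : Type} [Field A] [Field B] [Algebra F A] [Algebra F B] (e : A ≃ₐ[F] B)
    (σ : A ≃ₐ[F] A) (b : B) : cj e σ b = e (σ (e.symm b)) := rfl

lemma cj_mul {A B : Type} [Field A] [Field B] [Algebra F A] [Algebra F B] (e : A ≃ₐ[F] B)
    (σ τ : A ≃ₐ[F] A) : cj e (σ * τ) = cj e σ * cj e τ := by
  ext b
  simp [cj]

lemma cj_cont {A B : Type} [Field A] [Field B] [Algebra F A] [Algebra F B] (e : A ≃ₐ[F] B) :
    Continuous (cj e) := by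
  let φ : (A ≃ₐ[F] A) →* (B ≃ₐ[F] B) := (AlgEquiv.autCongr e).toMonoidHom
  have : (cj e) = φ := rfl
  rw [this]
  apply continuous_of_continuousAt_one
  intro s hs
  rw [map_one, krullTopology_mem_nhds_one_iff] at hs
  obtain ⟨E, hE, h⟩ := hs
  rw [Filter.mem_map, krullTopology_mem_nhds_one_iff]
  have hfd : FiniteDimensional F (E.map e.symm.toAlgHom) :=
    (E.equivMap e.symm.toAlgHom).toLinearEquiv.finiteDimensional
  refine ⟨E.map e.symm.toAlgHom, hfd, ?_⟩
  intro σ hσ
  apply h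
  change φ σ ∈ E.fixingSubgroup
  rw [IntermediateField.mem_fixingSubgroup_iff]
  intro x hx
  have h1 : σ (e.symm x) = e.symm x := by
    have h2 : σ ∈ (E.map e.symm.toAlgHom).fixingSubgroup := hσ
    rw [IntermediateField.mem_fixingSubgroup_iff] at h2
    exact h2 _ ⟨x, hx, rfl⟩
  change e (σ (e.symm x)) = x
  rw [h1, AlgEquiv.apply_symm_apply]

/-- The comparison map. -/
noncomputable def Phi (e : Sep F ≃ₐ[F] AlgebraicClosure F) (f : Coch W) :
    (Sep F ≃ₐ[F] Sep F) → PG W (Sep F) :=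
  fun σ => tr W e.symm.toAlgHom (f (cj e σ))

variable {W}

lemma Phi_coc (e : Sep F ≃ₐ[F] AlgebraicClosure F) (f : Coch W)
    (hf : Pool.Agent.TH841.SH.D.IsCoc W f) : Pool.Agent.TH115.GD.IsCoc W (Phi W e f) := by
  refine ⟨?_, ?_⟩
  · exact (hf.1.comp_continuous (cj_cont e)).comp _
  · intro σ τ
    change tr W e.symm.toAlgHom (f (cj e (σ * τ))) = tr W e.symm.toAlgHom (f (cj e σ)) +
      Pool.Agent.TH115.GD.act W (rs F σ) (tr W e.symm.toAlgHom (f (cj e τ)))
    rw [cj_mul, hf.2, map_add, tr_actD, actG_tr]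
    congr 2
    congr 1
    ext x
    simp [rs, cj]

lemma Phi_loc (e : Sep F ≃ₐ[F] AlgebraicClosure F) (f : Coch W) (M : Type) [Field M] [Algebra F M]
    (em : Sep M ≃ₐ[M] AlgebraicClosure M) (hf : Pool.Agent.TH841.SH.D.LocTriv W M f) :
    Pool.Agent.TH115.GD.LocTriv W M (Sep M) (Phi W e f) := by
  let ι : AlgebraicClosure F →ₐ[F] AlgebraicClosure M := IsAlgClosed.lift
  obtain ⟨P, hP⟩ := hf ι
  let em' : Sep M ≃ₐ[F] AlgebraicClosure M := em.restrictScalars F
  refine ⟨(em'.symm.toAlgHom.comp ι).comp e.toAlgHom, tr W em'.symm.toAlgHom P, ?_⟩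
  intro τ σ h
  have h1 := hP (cj em τ) (cj e σ) (by
    intro y
    have h2 := h (e.symm y)
    change em (τ (em.symm (ι y))) = ι (e (σ (e.symm y)))
    have h3 : τ (em.symm (ι (e (e.symm y)))) = em.symm (ι (e (σ (e.symm y)))) := h2
    rw [AlgEquiv.apply_symm_apply] at h3
    rw [h3, AlgEquiv.apply_symm_apply])
  have h4 := congrArg (tr W em'.symm.toAlgHom) h1
  rw [map_sub, tr_actD, tr_actD] at h4
  change Pool.Agent.TH115.GD.act W
    (((em'.symm.toAlgHom.comp ι).comp e.toAlgHom).restrictScalars F)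
      (tr W e.symm.toAlgHom (f (cj e σ))) =
    Pool.Agent.TH115.GD.act W (rs F τ) (tr W em'.symm.toAlgHom P) - tr W em'.symm.toAlgHom P
  rw [actG_tr, actG_tr]
  have h5 : (((em'.symm.toAlgHom.comp ι).comp e.toAlgHom).restrictScalars F).comp e.symm.toAlgHom =
      em'.symm.toAlgHom.comp ι := by
    ext x
    simp
  have h6 : (rs F τ).comp em'.symm.toAlgHom =
      em'.symm.toAlgHom.comp ((cj em τ).toAlgHom.restrictScalars F) := by
    ext x
    simp [rs, cj, em']
  rw [h5, h6]
  exact h4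

end

theorem cmp : Pool.Agent.Helper91.AV.S_CMP := by
  intro F _ _ W
  let e : Sep F ≃ₐ[F] AlgebraicClosure F := IsSepClosure.equiv F (Sep F) (AlgebraicClosure F)
  refine ⟨Phi W e, ?_, ?_⟩
  · rintro f ⟨⟨hc, hfin, -⟩, h2⟩
    refine ⟨Phi_coc e f hc, ?_, ?_⟩
    · intro σ
      have h3 : (2 : ℕ) • f (cj e σ) = 0 := congrFun h2 (cj e σ)
      change (2 : ℕ) • tr W e.symm.toAlgHom (f (cj e σ)) = 0
      rw [← map_nsmul, h3, map_zero]
    · intro w
      have hchar : CharZero (Comp (𝓞 F) F w) := algebraRat.charZero _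
      exact Phi_loc e f (Comp (𝓞 F) F w) (IsSepClosure.equiv _ _ _) (hfin w)
  · rintro f g ⟨T, hT, h⟩
    refine ⟨tr' W e.toAlgHom T, ?_, ?_⟩
    · rw [← map_nsmul, hT, map_zero]
    · intro σ
      have h1 := congrArg (tr' W e.toAlgHom) (h (cj e.symm σ))
      have h2 : cj e (cj e.symm σ) = σ := by
        ext x
        simp [cj]
      have h3 : ∀ f : Coch W, tr' W e.toAlgHom (Phi W e f (cj e.symm σ)) = f σ := by
        intro f
        change tr' W e.toAlgHom (tr W e.symm.toAlgHom (f (cj e (cj e.symm σ)))) = f σ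
        rw [h2]
        apply tr'_tr
        ext x
        simp
      rw [map_add, h3, h3, map_sub, tr'_actG] at h1
      change f σ - g σ = _
      rw [h1, actD_tr', add_sub_cancel_left]
      congr 3
      ext x
      simp [rs, cj]

end Pool.Agent.Helper45.AV
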