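import Pool.Agent.Helper45.AV.Cmp

/-! The comparison of the two definitions of the 2-Selmer group, with the real places
(module for helper91). -/

set_option autoImplicit false

open IsDedekindDomain NumberField
open scoped Classical

namespace Pool.Agent.Helper45.AV

open Pool.Agent.TH841.SH.D (Gal Coch)
open Pool.Agent.TH115.GD (Sep Comp rs)
open Pool.Agent.Helper91.AV

section

variable {F : Type} [Field F] {W : WeierstrassCurve F}

lemma actD_actD {L M N : Type} [Field L] [Algebra F L] [Field M] [Algebra F M] [Field N]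
    [Algebra F N] (ψ : M →ₐ[F] N) (φ : L →ₐ[F] M) (P : PD W L) :
    Pool.Agent.TH841.SH.D.act W ψ (Pool.Agent.TH841.SH.D.act W φ P) =
      Pool.Agent.TH841.SH.D.act W (ψ.comp φ) P :=
  WeierstrassCurve.Affine.Point.map_map _ _ _

/-- Local triviality only depends on the extension up to isomorphism. -/
lemma loc_transfer {M M' : Type} [Field M] [Field M'] [Algebra F M] [Algebra F M'] (g : M ≃ₐ[F] M')
    (f : Coch W) (hf : Pool.Agent.TH841.SH.D.LocTriv W M f) :
    Pool.Agent.TH841.SH.D.LocTriv W M' f := by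
  let h0 : AlgebraicClosure M' ≃+* AlgebraicClosure M :=
    IsAlgClosure.equivOfEquiv (AlgebraicClosure M') (AlgebraicClosure M) g.symm.toRingEquiv
  have h0c : ∀ y : M', h0 (algebraMap M' (AlgebraicClosure M') y) =
      algebraMap M (AlgebraicClosure M) (g.symm y) := fun y =>
    IsAlgClosure.equivOfEquiv_algebraMap _ _ _ _
  have h0s : ∀ y : M, h0.symm (algebraMap M (AlgebraicClosure M) y) =
      algebraMap M' (AlgebraicClosure M') (g y) := by
    intro y
    rw [RingEquiv.symm_apply_eq, h0c, AlgEquiv.symm_apply_apply]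
  let h : AlgebraicClosure M' ≃ₐ[F] AlgebraicClosure M := AlgEquiv.ofRingEquiv (f := h0) (by
    intro r
    rw [IsScalarTower.algebraMap_apply F M' (AlgebraicClosure M'), h0c,
      IsScalarTower.algebraMap_apply F M (AlgebraicClosure M), AlgEquiv.commutes])
  intro ι'
  obtain ⟨P, hP⟩ := hf (h.toAlgHom.comp ι')
  refine ⟨Pool.Agent.TH841.SH.D.act W h.symm.toAlgHom P, ?_⟩
  intro τ' σ hτ
  let τ0 : AlgebraicClosure M ≃+* AlgebraicClosure M := (h0.symm.trans τ'.toRingEquiv).trans h0
  let τ : AlgebraicClosure M ≃ₐ[M] AlgebraicClosure M := AlgEquiv.ofRingEquiv (f := τ0) (by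
    intro m
    change h0 (τ' (h0.symm (algebraMap M (AlgebraicClosure M) m))) = _
    rw [h0s, AlgEquiv.commutes, h0c, AlgEquiv.symm_apply_apply])
  have h1 := hP τ σ (by
    intro x
    change h0 (τ' (h0.symm (h0 (ι' x)))) = h0 (ι' (σ x))
    rw [RingEquiv.symm_apply_apply, hτ])
  have h2 := congrArg (Pool.Agent.TH841.SH.D.act W h.symm.toAlgHom) h1
  rw [map_sub, actD_actD, actD_actD] at h2
  rw [actD_actD]
  have h3 : h.symm.toAlgHom.comp (h.toAlgHom.comp ι') = ι' := by
    ext x
    simp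
  have h4 : (τ'.toAlgHom.restrictScalars F).comp h.symm.toAlgHom =
      h.symm.toAlgHom.comp (τ.toAlgHom.restrictScalars F) := by
    ext x
    change τ' (h0.symm x) = h0.symm (h0 (τ' (h0.symm x)))
    rw [RingEquiv.symm_apply_apply]
  rw [h3] at h2
  rw [h4]
  exact h2

end

/-- The comparison with all places. -/
def S_CMP2 : Prop := ∀ (F : Type) [Field F] [NumberField F] (W : WeierstrassCurve F),
  ∃ Φ : Pool.Agent.TH841.SH.D.Coch W →
    (Pool.Agent.TH115.GD.Sep F ≃ₐ[F] Pool.Agent.TH115.GD.Sep F) →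
    Pool.Agent.TH115.GD.Pt W (Pool.Agent.TH115.GD.Sep F),
    (∀ f ∈ selCoc W 2, SelCoc W (Φ f)) ∧ ∀ f g, Cob W (Φ f) (Φ g) → f - g ∈ cobTor W 2

lemma real_equiv (F : Type) [Field F] [NumberField F] (ρ : F →+* ℝ) :
    ∃ v : InfinitePlace F, ∃ g : v.Completion ≃+* ℝ,
      ∀ x : F, g (algebraMap F v.Completion x) = ρ x := by
  let φ : F →+* ℂ := Complex.ofRealHom.comp ρ
  have hφ : ComplexEmbedding.IsReal φ := by
    rw [ComplexEmbedding.isReal_iff]
    ext x
    simp [φ, ComplexEmbedding.conjugate]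
  let v : InfinitePlace F := InfinitePlace.mk φ
  have hv : v.IsReal := ⟨φ, hφ, rfl⟩
  refine ⟨v, InfinitePlace.Completion.ringEquivRealOfIsReal hv, ?_⟩
  intro x
  rw [InfinitePlace.Completion.ringEquivRealOfIsReal_apply]
  have h1 : InfinitePlace.Completion.extensionEmbeddingOfIsReal hv (algebraMap F v.Completion x) =
      InfinitePlace.embedding_of_isReal hv x :=
    InfinitePlace.Completion.extensionEmbeddingOfIsReal_coe hv ((WithAbs.equiv v.1).symm x)
  rw [h1]
  apply Complex.ofReal_injective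
  rw [InfinitePlace.embedding_of_isReal_apply, InfinitePlace.embedding_mk_eq_of_isReal hφ]
  rfl

theorem cmp2 : S_CMP2 := by
  intro F _ _ W
  let e : Sep F ≃ₐ[F] AlgebraicClosure F := IsSepClosure.equiv F (Sep F) (AlgebraicClosure F)
  refine ⟨Phi W e, ?_, ?_⟩
  · rintro f ⟨⟨hc, hfin, hinf⟩, h2⟩
    refine ⟨Phi_coc e f hc, ?_, ?_, ?_⟩
    · intro σ
      have h3 : (2 : ℕ) • f (cj e σ) = 0 := congrFun h2 (cj e σ)
      change (2 : ℕ) • tr W e.symm.toAlgHom (f (cj e σ)) = 0
      rw [← map_nsmul, h3, map_zero]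
    · intro w
      have hchar : CharZero (Comp (𝓞 F) F w) := algebraRat.charZero _
      exact Phi_loc e f (Comp (𝓞 F) F w) (IsSepClosure.equiv _ _ _) (hfin w)
    · intro ρ
      let : Algebra F ℝ := ρ.toAlgebra
      obtain ⟨v, g, hg⟩ := real_equiv F ρ
      let g' : v.Completion ≃ₐ[F] ℝ := AlgEquiv.ofRingEquiv (f := g) hg
      exact Phi_loc e f ℝ (IsSepClosure.equiv _ _ _) (loc_transfer g' f (hinf v))
  · rintro f g ⟨T, hT, h⟩
    refine ⟨tr' W e.toAlgHom T, ?_, ?_⟩
    · rw [← map_nsmul, hT, map_zero]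
    · intro σ
      have h1 := congrArg (tr' W e.toAlgHom) (h (cj e.symm σ))
      have h2 : cj e (cj e.symm σ) = σ := by
        ext x
        simp [cj]
      have h3 : ∀ f : Coch W, tr' W e.toAlgHom (Phi W e f (cj e.symm σ)) = f σ := by
        intro f
        change tr' W e.toAlgHom (tr W e.symm.toAlgHom (f (cj e (cj e.symm σ)))) = f σ
        rw [h2]
        apply tr'_tr
        ext x
        simp
      rw [map_add, h3, h3, map_sub, tr'_actG] at h1
      change f σ - g σ = _
      rw [h1, actD_tr', add_sub_cancel_left]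
      congr 3
      ext x
      simp [rs, cj]

end Pool.Agent.Helper45.AV
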