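import Pool.Agent.Helper45.AV.SrbD
import Pool.Agent.Helper60.AV.Rb
import Pool.Agent.Helper91.AV.Def7

/-!
# The 2-Selmer groups of the curves with a point of order two
(module for helper91)
-/

set_option autoImplicit false

open WeierstrassCurve IsDedekindDomain NumberField
open scoped Classical

namespace Pool.Agent.Helper45.AV

open Pool.Agent.TH841.SH.D (Pt act Gal Coch IsCoc LocTriv)
open Pool.Agent.Helper91.AV
open Pool.Agent.Helper60.AV (sel_card count_primes finite_dvd norm_bound root_int)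

variable {F : Type} [Field F] [NumberField F]

lemma even_of_sq (v : HeightOneSpectrum (𝓞 F)) (d : Fˣ)
    (h : ∃ γ : WithZero (Multiplicative ℤ), v.valuation F (d : F) = γ ^ 2) :
    Even (Multiplicative.toAdd (v.valuationOfNeZero d)) := by
  obtain ⟨γ, hγ⟩ := h
  have h0 : v.valuation F (d : F) ≠ 0 := by
    rw [Ne, Valuation.zero_iff]
    exact d.ne_zero
  have hγ0 : γ ≠ 0 := by
    rintro rfl
    rw [hγ] at h0
    exact h0 (by simp)
  obtain ⟨g, rfl⟩ := WithZero.ne_zero_iff_exists.1 hγ0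
  rw [← v.valuationOfNeZero_eq, ← WithZero.coe_pow] at hγ
  have h1 := WithZero.coe_injective hγ
  rw [h1, toAdd_pow, nsmul_eq_mul]
  exact even_two.mul_right _

lemma val_coe (v : HeightOneSpectrum (𝓞 F)) (x : F) :
    (Valued.v : Valuation (v.adicCompletion F) (WithZero (Multiplicative ℤ)))
      (algebraMap F (v.adicCompletion F) x) = v.valuation F x :=
  v.valuedAdicCompletion_eq_valuation' x

/-- The set of the cocycles is finite, with a bound. -/
theorem coc_card (a b : 𝓞 F) (hΔ : 4 * a ^ 3 + 27 * b ^ 2 ≠ 0) (r0 : 𝓞 F)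
    (hr0 : (r0 : F) ^ 3 + (a : F) * (r0 : F) + (b : F) = 0) (T : Finset F)
    (hT : ∀ a' : Fˣ, (∀ v : HeightOneSpectrum (𝓞 F), v ∉ (finite_dvd _ hΔ).toFinset →
        Even (Multiplicative.toAdd (v.valuationOfNeZero a'))) →
      ∃ t ∈ T, ∃ b : F, b ≠ 0 ∧ (a' : F) = t * b ^ 2) :
    ∃ E : Finset (Coch (cW (a : F) (b : F))), E.card ≤ T.card ^ 2 ∧
      ∀ f ∈ selCoc (cW (a : F) (b : F)) 2, f ∈ E := by
  have hb0 : b = -r0 ^ 3 - a * r0 := by
    apply RingOfIntegers.ext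
    push_cast
    linear_combination hr0
  set x : 𝓞 F := 4 * a ^ 3 + 27 * b ^ 2 with hx
  have hfac : x = (3 * r0 ^ 2 + a) ^ 2 * (3 * r0 ^ 2 + 4 * a) := by
    rw [hx, hb0]; ring
  have hn1 : ∀ v : HeightOneSpectrum (𝓞 F), v ∉ (finite_dvd _ hΔ).toFinset →
      3 * r0 ^ 2 + a ∉ v.asIdeal := by
    intro v hv hm
    apply hv
    rw [Set.Finite.mem_toFinset]
    change x ∈ v.asIdeal
    rw [hfac, pow_two, mul_assoc]
    exact v.asIdeal.mul_mem_right _ hm
  have hn2 : ∀ v : HeightOneSpectrum (𝓞 F), v ∉ (finite_dvd _ hΔ).toFinset →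
      -3 * r0 ^ 2 - 4 * a ∉ v.asIdeal := by
    intro v hv hm
    apply hv
    rw [Set.Finite.mem_toFinset]
    change x ∈ v.asIdeal
    have e : x = (-(3 * r0 ^ 2 + a) ^ 2) * (-3 * r0 ^ 2 - 4 * a) := by rw [hfac]; ring
    rw [e]
    exact v.asIdeal.mul_mem_left _ hm
  have c3 : ((3 : 𝓞 F) : F) = 3 := map_ofNat (algebraMap (𝓞 F) F) 3
  have c4 : ((4 : 𝓞 F) : F) = 4 := map_ofNat (algebraMap (𝓞 F) F) 4
  have c6 : ((6 : 𝓞 F) : F) = 6 := map_ofNat (algebraMap (𝓞 F) F) 6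
  have hx0 : x ≠ 0 := hΔ
  have hB : 3 * (r0 : F) ^ 2 + (a : F) ≠ 0 := by
    intro h0
    apply hx0
    rw [hfac]
    have : (3 * r0 ^ 2 + a : 𝓞 F) = 0 := by
      apply RingOfIntegers.ext
      push_cast
      simp only [c3]
      exact h0
    rw [this]
    ring
  have hD : 3 * (r0 : F) ^ 2 + 4 * (a : F) ≠ 0 := by
    intro h0
    apply hx0
    rw [hfac]
    have : (3 * r0 ^ 2 + 4 * a : 𝓞 F) = 0 := by
      apply RingOfIntegers.ext
      push_cast
      simp only [c3, c4]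
      exact h0
    rw [this]
    ring
  have hv1 : ∀ v : HeightOneSpectrum (𝓞 F), v ∉ (finite_dvd _ hΔ).toFinset →
      v.valuation F (3 * (r0 : F) ^ 2 + (a : F)) = 1 := by
    intro v hv
    have e : (3 * (r0 : F) ^ 2 + (a : F)) = ((3 * r0 ^ 2 + a : 𝓞 F) : F) := by
      push_cast
      simp only [c3]
    rw [e]
    refine le_antisymm (v.valuation_le_one _) (not_lt.mp fun hlt => hn1 v hv ?_)
    exact (v.valuation_lt_one_iff_mem _).mp hlt
  have hv2 : ∀ v : HeightOneSpectrum (𝓞 F), v ∉ (finite_dvd _ hΔ).toFinset →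
      v.valuation F (-3 * (r0 : F) ^ 2 - 4 * (a : F)) = 1 := by
    intro v hv
    have e : (-3 * (r0 : F) ^ 2 - 4 * (a : F)) = ((-3 * r0 ^ 2 - 4 * a : 𝓞 F) : F) := by
      push_cast
      simp only [c3, c4]
    rw [e]
    refine le_antisymm (v.valuation_le_one _) (not_lt.mp fun hlt => hn2 v hv ?_)
    exact (v.valuation_lt_one_iff_mem _).mp hlt
  have hv3 : ∀ v : HeightOneSpectrum (𝓞 F), v.valuation F (3 * (r0 : F)) ≤ 1 := by
    intro v
    have e : (3 * (r0 : F)) = ((3 * r0 : 𝓞 F) : F) := by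
      push_cast
      simp only [c3]
    rw [e]
    exact v.valuation_le_one _
  have hv4 : ∀ v : HeightOneSpectrum (𝓞 F), v.valuation F (-6 * (r0 : F)) ≤ 1 := by
    intro v
    have e : (-6 * (r0 : F)) = ((-6 * r0 : 𝓞 F) : F) := by
      push_cast
      simp only [c6]
    rw [e]
    exact v.valuation_le_one _
  have hS2 : ∀ f ∈ selCoc (cW (a : F) (b : F)) 2, ∀ σ, f σ + f σ = 0 := by
    intro f hf σ
    have h3 : (2 : ℕ) • f σ = 0 := congrFun hf.2 σ
    rwa [two_nsmul] at h3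
  refine count hr0 T (selCoc (cW (a : F) (b : F)) 2) hS2 ?_ ?_
  · intro f hf
    obtain ⟨⟨hc, hfin, -⟩, -⟩ := id hf
    obtain ⟨d, hd0, δ, hδ0, hδ, hδσ⟩ := PK.exists
      (fun σ => chi' (cW (a : F) (b : F)) (algebraMap F (AlgebraicClosure F) (r0 : F)) (f σ))
      (hc.1.comp _) (chi'_coc hr0 f hc (hS2 f hf))
    obtain ⟨t, ht, c, hc0, hdc⟩ := hT (Units.mk0 d hd0) (by
      intro v hv
      apply even_of_sq
      have hchar : CharZero (v.adicCompletion F) := algebraRat.charZero _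
      have := loc1 (K := v.adicCompletion F) (Valued.v : Valuation (v.adicCompletion F) _) hr0 hB hD
        (by rw [val_coe]; exact hv3 v) (by rw [val_coe]; exact hv1 v hv) f (hS2 f hf) (hfin v) δ hδ0
        hδσ d hδ.symm
      rw [val_coe] at this
      exact this)
    exact ⟨t, ht, PK.sq ⟨δ, hδ0, hδ, hδσ⟩ hc0 hdc⟩
  · intro f hf hTr
    obtain ⟨⟨hc, hfin, -⟩, -⟩ := id hf
    have hcomp : IsLocallyConstant (fun σ : Gal F => psi' (W := cW (a : F) (b : F)) (f σ)) :=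
      hc.1.comp (fun U : Pt (cW (a : F) (b : F)) (AlgebraicClosure F) => psi' U)
    obtain ⟨d, hd0, δ, hδ0, hδ, hδσ⟩ := PK.exists (fun σ => psi' (f σ))
      hcomp (psi'_coc f hc hTr)
    obtain ⟨t, ht, c, hc0, hdc⟩ := hT (Units.mk0 d hd0) (by
      intro v hv
      apply even_of_sq
      have hchar : CharZero (v.adicCompletion F) := algebraRat.charZero _
      have := loc2 (K := v.adicCompletion F) (Valued.v : Valuation (v.adicCompletion F) _) hr0 hB hD
        (by rw [val_coe]; exact hv4 v) (by rw [val_coe]; exact hv2 v hv) f hTr (hfin v) δ hδ0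
        hδσ d hδ.symm
      rw [val_coe] at this
      exact this)
    exact ⟨t, ht, PK.sq ⟨δ, hδ0, hδ, hδσ⟩ hc0 hdc⟩

/-- The Selmer group is finite, with a bound. -/
theorem sel_bound (W : WeierstrassCurve F) (E : Finset (Coch W)) (hE : ∀ f ∈ selCoc W 2, f ∈ E) :
    Finite (Selmer W 2) ∧ Nat.card (Selmer W 2) ≤ E.card := by
  have hinj : Function.Injective (fun f : selCoc W 2 => (⟨f.1, hE f.1 f.2⟩ : E)) := by
    intro f g h
    exact Subtype.ext (congrArg (fun z : E => (z : Coch W)) h)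
  have hfin : Finite (selCoc W 2) := Finite.of_injective _ hinj
  have h1 : Nat.card (selCoc W 2) ≤ E.card := by
    have := Nat.card_le_card_of_injective _ hinj
    rwa [Nat.card_eq_fintype_card (α := E), Fintype.card_coe] at this
  have hsurj : Function.Surjective (QuotientAddGroup.mk :
      selCoc W 2 → selCoc W 2 ⧸ (cobTor W 2).addSubgroupOf (selCoc W 2)) :=
    QuotientAddGroup.mk_surjective
  refine ⟨Finite.of_surjective _ hsurj, ?_⟩
  exact (Nat.card_le_card_of_surjective _ hsurj).trans h1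

theorem srb : S_SRB := by
  intro F _ _ m
  obtain ⟨C, hC⟩ := sel_card F
  obtain ⟨c, hc⟩ := count_primes F m
  refine ⟨(C + 2) ^ (2 * m) * (c ^ 2 * 31 ^ (2 * Module.finrank ℚ F)), ?_⟩
  intro B a b hB ha hb hΔ hr
  obtain ⟨r, hr⟩ := hr
  obtain ⟨r0, rfl⟩ := root_int a b r hr
  set x : 𝓞 F := 4 * a ^ 3 + 27 * b ^ 2 with hx
  set S := (finite_dvd x hΔ).toFinset with hS
  obtain ⟨T, hTc, hT0, hT⟩ := hC S
  obtain ⟨E, hEc, hE⟩ := coc_card a b hΔ r0 hr T hT
  obtain ⟨hfin, hcard⟩ := sel_bound _ E hE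
  refine ⟨hfin, ?_⟩
  have h1 : Nat.card (Selmer (⟨0, 0, 0, (a : F), (b : F)⟩ : WeierstrassCurve F) 2) ≤
      ((C + 2) * 2 ^ S.card) ^ 2 := by
    refine hcard.trans (hEc.trans ?_)
    apply Nat.pow_le_pow_left
    refine hTc.trans ?_
    exact Nat.mul_le_mul_right _ (Nat.le_add_right _ _)
  have hcx := hc x hΔ
  rw [← hS] at hcx
  have hN : (Algebra.norm ℤ x).natAbs ≤ (31 * B ^ 6) ^ Module.finrank ℚ F := by
    have h2 := norm_bound x (31 * (B : ℝ) ^ 6) (by
      intro σ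
      have h3 : σ (x : F) = 4 * σ (a : F) ^ 3 + 27 * σ (b : F) ^ 2 := by
        rw [hx]
        push_cast
        simp only [map_add, map_mul, map_pow, map_ofNat]
      rw [h3]
      calc ‖4 * σ (a : F) ^ 3 + 27 * σ (b : F) ^ 2‖
          ≤ ‖4 * σ (a : F) ^ 3‖ + ‖27 * σ (b : F) ^ 2‖ := norm_add_le _ _
        _ = 4 * ‖σ (a : F)‖ ^ 3 + 27 * ‖σ (b : F)‖ ^ 2 := by
            rw [norm_mul, norm_mul, norm_pow, norm_pow]
            norm_num
        _ ≤ 4 * ((B : ℝ) ^ 2) ^ 3 + 27 * ((B : ℝ) ^ 3) ^ 2 := by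
            have i1 := pow_le_pow_left₀ (norm_nonneg _) (ha σ) 3
            have i2 := pow_le_pow_left₀ (norm_nonneg _) (hb σ) 2
            linarith
        _ = 31 * (B : ℝ) ^ 6 := by ring)
    exact_mod_cast h2
  calc Nat.card (Selmer (⟨0, 0, 0, (a : F), (b : F)⟩ : WeierstrassCurve F) 2) ^ m
      ≤ (((C + 2) * 2 ^ S.card) ^ 2) ^ m := Nat.pow_le_pow_left h1 m
    _ = (C + 2) ^ (2 * m) * ((2 ^ m) ^ S.card) ^ 2 := by
        rw [← pow_mul, mul_pow, ← pow_mul, ← pow_mul, ← pow_mul]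
        congr 2
        ring
    _ ≤ (C + 2) ^ (2 * m) * (c * (31 * B ^ 6) ^ Module.finrank ℚ F) ^ 2 := by
        apply Nat.mul_le_mul_left
        apply Nat.pow_le_pow_left
        exact hcx.trans (Nat.mul_le_mul_left _ hN)
    _ = (C + 2) ^ (2 * m) * (c ^ 2 * 31 ^ (2 * Module.finrank ℚ F)) *
          B ^ (12 * Module.finrank ℚ F) := by
        rw [mul_pow, mul_pow, mul_pow, ← pow_mul, ← pow_mul, ← pow_mul]
        have e1 : Module.finrank ℚ F * 2 = 2 * Module.finrank ℚ F := by ring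
        have e2 : 6 * (2 * Module.finrank ℚ F) = 12 * Module.finrank ℚ F := by ring
        rw [e1, e2]
        ring

end Pool.Agent.Helper45.AV
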