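import Mathlib

/-!
# The two characters of the 2-torsion of a curve with a point of order two: the algebra
(module for helper91)
-/

set_option autoImplicit false
set_option linter.unusedSectionVars false

open WeierstrassCurve

namespace Pool.Agent.Helper45.AV

/-- The curve is `y ^ 2 = x ^ 3 + a x + b`. -/
structure Sh {L : Type} [Field L] (V : WeierstrassCurve L) (a b : L) : Prop where
  h1 : V.a₁ = 0
  h2 : V.a₂ = 0
  h3 : V.a₃ = 0
  h4 : V.a₄ = a
  h6 : V.a₆ = b

section

variable {L : Type} [Field L] [DecidableEq L] {V : WeierstrassCurve L} {a b r : L}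

lemma Sh.eqn (hV : Sh V a b) {x y : L} : V.toAffine.Equation x y ↔ y ^ 2 = x ^ 3 + a * x + b := by
  rw [WeierstrassCurve.Affine.equation_iff, hV.h1, hV.h2, hV.h3, hV.h4, hV.h6]
  constructor <;> intro h <;> linear_combination h

lemma Sh.negY (hV : Sh V a b) (x y : L) : V.toAffine.negY x y = -y := by
  rw [Affine.negY, hV.h1, hV.h3]
  ring

lemma Sh.addX (hV : Sh V a b) (x y l : L) : V.toAffine.addX x y l = l ^ 2 - x - y := by
  rw [Affine.addX, hV.h1, hV.h2]
  ring

lemma Sh.addY (hV : Sh V a b) (x x' y l : L) : V.toAffine.addY x x' y l =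
    -(y + l * (l ^ 2 - x - x' - x)) := by
  rw [Affine.addY, Affine.negAddY, hV.negY, hV.addX]
  ring

/-- The sum of two points with different abscissas. -/
lemma Sh.add (hV : Sh V a b) {x y x' y' : L} (h : V.toAffine.Nonsingular x y)
    (h' : V.toAffine.Nonsingular x' y') (hx : x ≠ x') (X Y l : L) (hl : (y - y') / (x - x') = l)
    (hX : l ^ 2 - x - x' = X) (hY : -(y + l * (X - x)) = Y) :
    ∃ h'' : V.toAffine.Nonsingular X Y,
      Affine.Point.some x y h + Affine.Point.some x' y' h' = Affine.Point.some X Y h'' := by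
  subst hX
  subst hY
  subst hl
  have e := Affine.Point.add_of_X_ne (h₁ := h) (h₂ := h') hx
  have e1 : V.toAffine.addX x x' (V.toAffine.slope x x' y y') = ((y - y') / (x - x')) ^ 2 - x - x' := by
    rw [hV.addX, Affine.slope_of_X_ne hx]
  have e2 : V.toAffine.addY x x' y (V.toAffine.slope x x' y y') = -(y + (y - y') / (x - x') *
      (((y - y') / (x - x')) ^ 2 - x - x' - x)) := by
    rw [hV.addY, Affine.slope_of_X_ne hx]
  have h3 : V.toAffine.Nonsingular (((y - y') / (x - x')) ^ 2 - x - x') (-(y + (y - y') / (x - x') *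
      (((y - y') / (x - x')) ^ 2 - x - x' - x))) := by
    rw [← e2, ← e1]
    exact Affine.nonsingular_add h h' (fun hh => hx hh.1)
  refine ⟨h3, ?_⟩
  rw [e]
  simp only [Affine.Point.some.injEq]
  exact ⟨e1, e2⟩

/-- Doubling. -/
lemma Sh.dbl (hV : Sh V a b) {x y : L} (h : V.toAffine.Nonsingular x y) (hy : 2 * y ≠ 0) (X Y l : L)
    (hl : (3 * x ^ 2 + a) / (2 * y) = l)
    (hX : l ^ 2 - x - x = X) (hY : -(y + l * (X - x)) = Y) :
    ∃ h'' : V.toAffine.Nonsingular X Y,
      Affine.Point.some x y h + Affine.Point.some x y h = Affine.Point.some X Y h'' := by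
  subst hX
  subst hY
  subst hl
  have hy' : y ≠ V.toAffine.negY x y := by
    rw [hV.negY]
    intro hh
    apply hy
    linear_combination hh
  have e := Affine.Point.add_self_of_Y_ne (h₁ := h) hy'
  have e0 : V.toAffine.slope x x y y = (3 * x ^ 2 + a) / (2 * y) := by
    rw [Affine.slope_of_Y_ne rfl hy', hV.negY, hV.h1, hV.h2, hV.h4]
    congr 1
    · ring
    · ring
  have e1 : V.toAffine.addX x x (V.toAffine.slope x x y y) =
      ((3 * x ^ 2 + a) / (2 * y)) ^ 2 - x - x := by
    rw [hV.addX, e0]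
  have e2 : V.toAffine.addY x x y (V.toAffine.slope x x y y) = -(y + (3 * x ^ 2 + a) / (2 * y) *
      (((3 * x ^ 2 + a) / (2 * y)) ^ 2 - x - x - x)) := by
    rw [hV.addY, e0]
  have h3 : V.toAffine.Nonsingular (((3 * x ^ 2 + a) / (2 * y)) ^ 2 - x - x)
      (-(y + (3 * x ^ 2 + a) / (2 * y) * (((3 * x ^ 2 + a) / (2 * y)) ^ 2 - x - x - x))) := by
    rw [← e2, ← e1]
    exact Affine.nonsingular_add h h (fun hh => hy' hh.2)
  refine ⟨h3, ?_⟩
  rw [e]
  simp only [Affine.Point.some.injEq]
  exact ⟨e1, e2⟩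

/-- The points killed by two. -/
lemma Sh.two (hV : Sh V a b) (h2 : (2 : L) ≠ 0) {U : V.toAffine.Point} (hU : U + U = 0) :
    U = 0 ∨ ∃ (e : L) (h : V.toAffine.Nonsingular e 0), U = Affine.Point.some e 0 h := by
  match U with
  | .zero => exact Or.inl rfl
  | .some x y h =>
    by_cases hy : 2 * y = 0
    · have hy0 : y = 0 := (mul_eq_zero.1 hy).resolve_left h2
      subst hy0
      exact Or.inr ⟨x, h, rfl⟩
    · obtain ⟨h'', e⟩ := hV.dbl h hy _ _ _ rfl rfl rfl
      rw [e] at hU
      exact absurd hU (Affine.Point.some_ne_zero _)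

/-- Translation by a point of order two. -/
lemma Sh.trans (hV : Sh V a b) {x y e : L} (h : V.toAffine.Nonsingular x y)
    (h' : V.toAffine.Nonsingular e 0) (hx : x ≠ e) :
    ∃ h'' : V.toAffine.Nonsingular (e + (3 * e ^ 2 + a) / (x - e))
      (-(3 * e ^ 2 + a) * y / (x - e) ^ 2),
      Affine.Point.some x y h + Affine.Point.some e 0 h' = Affine.Point.some _ _ h'' := by
  have q := hV.eqn.1 h.1
  have q' := hV.eqn.1 h'.1
  have hxe : x - e ≠ 0 := sub_ne_zero.2 hx
  have hb : b = -(e ^ 3 + a * e) := by linear_combination (-1) * q'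
  subst hb
  have e1 : y ^ 2 = (x - e) * (x ^ 2 + e * x + e ^ 2 + a) := by linear_combination q
  have hX : ((y - 0) / (x - e)) ^ 2 - x - e = e + (3 * e ^ 2 + a) / (x - e) := by
    field_simp
    linear_combination e1
  refine hV.add h h' hx _ _ _ rfl hX ?_
  have : e + (3 * e ^ 2 + a) / (x - e) - x = (3 * e ^ 2 + a) / (x - e) - (x - e) := by ring
  rw [this]
  field_simp
  ring

/-- The point is zero or `(r, 0)`. -/
def Tr (r : L) (U : V.toAffine.Point) : Prop :=
  U = 0 ∨ ∃ h : V.toAffine.Nonsingular r 0, U = Affine.Point.some r 0 h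

/-- The character. -/
noncomputable def chi (r : L) (U : V.toAffine.Point) : ℤˣ :=
  open scoped Classical in if Tr r U then 1 else -1

lemma Sh.two_root (hV : Sh V a b) (hr : r ^ 3 + a * r + b = 0) {e : L}
    (h : V.toAffine.Nonsingular e 0) (her : e ≠ r) : e ^ 2 + r * e + r ^ 2 + a = 0 := by
  have q := hV.eqn.1 h.1
  have h1 : (e - r) * (e ^ 2 + r * e + r ^ 2 + a) = 0 := by linear_combination (-1) * q - hr
  exact (mul_eq_zero.1 h1).resolve_left (sub_ne_zero.2 her)

lemma Sh.some_add_self (hV : Sh V a b) {e : L} (h : V.toAffine.Nonsingular e 0) :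
    Affine.Point.some e 0 h + Affine.Point.some e 0 h = 0 := by
  apply Affine.Point.add_self_of_Y_eq
  rw [hV.negY, neg_zero]

lemma Sh.Tr_two (hV : Sh V a b) {U : V.toAffine.Point} (hU : Tr r U) : U + U = 0 := by
  rcases hU with rfl | ⟨h, rfl⟩
  · exact add_zero 0
  · exact hV.some_add_self h

lemma Sh.Tr_add (hV : Sh V a b) {U U' : V.toAffine.Point} (hU : Tr r U) (hU' : Tr r U') :
    Tr r (U + U') := by
  rcases hU with rfl | ⟨h, rfl⟩
  · rw [zero_add]; exact hU'
  · rcases hU' with rfl | ⟨h', rfl⟩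
    · rw [add_zero]; exact Or.inr ⟨h, rfl⟩
    · exact Or.inl (hV.some_add_self h)

lemma Sh.not_Tr_add (hV : Sh V a b) (h2 : (2 : L) ≠ 0) (hr : r ^ 3 + a * r + b = 0)
    {U U' : V.toAffine.Point} (hU2 : U + U = 0) (hU'2 : U' + U' = 0) (hU : ¬Tr r U)
    (hU' : ¬Tr r U') : Tr r (U + U') := by
  rcases hV.two h2 hU2 with h0 | ⟨e, h, rfl⟩
  · exact absurd (Or.inl h0) hU
  rcases hV.two h2 hU'2 with h0 | ⟨e', h', rfl⟩
  · exact absurd (Or.inl h0) hU'
  have her : e ≠ r := by
    rintro rfl
    exact hU (Or.inr ⟨h, rfl⟩)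
  have her' : e' ≠ r := by
    rintro rfl
    exact hU' (Or.inr ⟨h', rfl⟩)
  by_cases hee : e = e'
  · subst hee
    exact Or.inl (hV.some_add_self h)
  · have e1 := hV.two_root hr h her
    have e2 := hV.two_root hr h' her'
    have e3 : e + e' + r = 0 := by
      have : (e - e') * (e + e' + r) = 0 := by linear_combination e1 - e2
      exact (mul_eq_zero.1 this).resolve_left (sub_ne_zero.2 hee)
    obtain ⟨h'', e4⟩ := hV.add h h' hee r 0 0 (by rw [sub_self, zero_div])
      (by linear_combination (-1) * e3) (by ring)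
    exact Or.inr ⟨h'', e4⟩

lemma chi_one {U : V.toAffine.Point} (hU : Tr r U) : chi r U = 1 := if_pos hU

lemma chi_neg {U : V.toAffine.Point} (hU : ¬Tr r U) : chi r U = -1 := if_neg hU

lemma Sh.chi_add (hV : Sh V a b) (h2 : (2 : L) ≠ 0) (hr : r ^ 3 + a * r + b = 0)
    {U U' : V.toAffine.Point} (hU2 : U + U = 0) (hU'2 : U' + U' = 0) :
    chi r (U + U') = chi r U * chi r U' := by
  by_cases hU : Tr r U
  · rw [chi_one hU, one_mul]
    by_cases hU' : Tr r U'
    · rw [chi_one hU', chi_one (hV.Tr_add hU hU')]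
    · rw [chi_neg hU', chi_neg]
      intro h
      apply hU'
      have : U' = U + (U + U') := by rw [← add_assoc, hU2, zero_add]
      rw [this]
      exact hV.Tr_add hU h
  · rw [chi_neg hU]
    by_cases hU' : Tr r U'
    · rw [chi_one hU', mul_one, chi_neg]
      intro h
      apply hU
      have : U = (U + U') + U' := by rw [add_assoc, hU'2, add_zero]
      rw [this]
      exact hV.Tr_add h hU'
    · rw [chi_neg hU', chi_one (hV.not_Tr_add h2 hr hU2 hU'2 hU hU')]
      rfl

/-- The first function. -/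
noncomputable def sF (r B : L) : V.toAffine.Point → L
  | .zero => 1
  | .some x y _ => if y = 0 then 1 else if (x - r) ^ 2 = B then x - r else
      ((x - r) ^ 2 - B) / (2 * y)

lemma sF_ne {B : L} (h2 : (2 : L) ≠ 0) (hB : B ≠ 0) (Q : V.toAffine.Point) : sF r B Q ≠ 0 := by
  match Q with
  | .zero => exact one_ne_zero
  | .some x y h =>
    rw [sF]
    split_ifs with h3 h4
    · exact one_ne_zero
    · intro h5
      apply hB
      rw [← h4, h5]
      ring
    · exact div_ne_zero (sub_ne_zero.2 h4) (mul_ne_zero h2 h3)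

lemma Sh.sF_add (hV : Sh V a b) (h2 : (2 : L) ≠ 0) (hr : r ^ 3 + a * r + b = 0)
    (hB : 3 * r ^ 2 + a ≠ 0) (hD : 3 * r ^ 2 + 4 * a ≠ 0) {Q U : V.toAffine.Point}
    (hQ : Q + Q ≠ 0) (hU : U + U = 0) :
    sF r (3 * r ^ 2 + a) (Q + U) = ((chi r U : ℤˣ) : ℤ) * sF r (3 * r ^ 2 + a) Q := by
  match Q with
  | .zero => exact absurd (add_zero _) hQ
  | .some x y h =>
    have hy : y ≠ 0 := by
      rintro rfl
      exact hQ (hV.some_add_self h)
    rcases hV.two h2 hU with rfl | ⟨e, h', rfl⟩
    · rw [add_zero, chi_one (Or.inl rfl)]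
      simp
    · have q := hV.eqn.1 h.1
      have q' := hV.eqn.1 h'.1
      have hxe : x ≠ e := by
        rintro rfl
        apply hy
        have : y ^ 2 = 0 := by linear_combination q - q'
        exact pow_eq_zero_iff (two_ne_zero) |>.1 this
      have hxe' : x - e ≠ 0 := sub_ne_zero.2 hxe
      obtain ⟨h'', e1⟩ := hV.trans h h' hxe
      rw [e1]
      by_cases her : e = r
      · subst her
        rw [chi_one (Or.inr ⟨h', rfl⟩)]
        have hy' : -(3 * e ^ 2 + a) * y / (x - e) ^ 2 ≠ 0 :=
          div_ne_zero (mul_ne_zero (neg_ne_zero.2 hB) hy) (pow_ne_zero _ hxe')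
        have e2 : e + (3 * e ^ 2 + a) / (x - e) - e = (3 * e ^ 2 + a) / (x - e) := by ring
        simp only [sF, if_neg hy, if_neg hy', Units.val_one, Int.cast_one, one_mul, e2]
        by_cases h4 : (x - e) ^ 2 = 3 * e ^ 2 + a
        · rw [if_pos h4, if_pos]
          · rw [div_eq_iff hxe', ← h4]
            ring
          · rw [div_pow, h4]
            field_simp
        · rw [if_neg h4, if_neg]
          · field_simp
            ring
          · intro h5
            apply h4
            rw [div_pow, div_eq_iff (pow_ne_zero _ hxe'), pow_two (3 * e ^ 2 + a)] at h5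
            exact (mul_left_cancel₀ hB h5).symm
      · have e0 := hV.two_root hr h' her
        have hne : ¬Tr r (Affine.Point.some e 0 h') := by
          rintro (h0 | ⟨h0, h00⟩)
          · exact Affine.Point.some_ne_zero _ h0
          · simp only [Affine.Point.some.injEq, and_true] at h00
            exact her h00
        rw [chi_neg hne]
        have hc : 3 * e ^ 2 + a ≠ 0 := by
          intro h0
          have h01 : (e - r) * (2 * e + r) = 0 := by linear_combination h0 - e0
          have h02 := (mul_eq_zero.1 h01).resolve_left (sub_ne_zero.2 her)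
          apply hD
          linear_combination 4 * e0 - (2 * e + r) * h02
        have hy' : -(3 * e ^ 2 + a) * y / (x - e) ^ 2 ≠ 0 :=
          div_ne_zero (mul_ne_zero (neg_ne_zero.2 hc) hy) (pow_ne_zero _ hxe')
        have her' : e - r ≠ 0 := sub_ne_zero.2 her
        have ha : a = -(e ^ 2 + r * e + r ^ 2) := by linear_combination e0
        subst ha
        have hf : 2 * e + r ≠ 0 := by
          intro h0
          apply hc
          linear_combination (e - r) * h0
        have e2 : e + (3 * e ^ 2 + -(e ^ 2 + r * e + r ^ 2)) / (x - e) - r =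
            (e - r) * (x + e + r) / (x - e) := by
          field_simp
          ring
        have e3 : ((e - r) * (x + e + r) / (x - e)) ^ 2 - (3 * r ^ 2 + -(e ^ 2 + r * e + r ^ 2)) =
            (e - r) * (2 * e + r) * ((x - r) ^ 2 - (3 * r ^ 2 + -(e ^ 2 + r * e + r ^ 2))) /
              (x - e) ^ 2 := by
          field_simp
          ring
        simp only [sF, if_neg hy, if_neg hy', e2]
        by_cases h4 : (x - r) ^ 2 = 3 * r ^ 2 + -(e ^ 2 + r * e + r ^ 2)
        · rw [if_pos h4, if_pos]
          · rw [div_eq_iff hxe']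
            push_cast
            linear_combination h4
          · rw [← sub_eq_zero, e3, h4, sub_self, mul_zero, zero_div]
        · rw [if_neg h4, if_neg]
          · have e4 : 2 * (-(3 * e ^ 2 + -(e ^ 2 + r * e + r ^ 2)) * y / (x - e) ^ 2) =
                -(2 * ((e - r) * (2 * e + r)) * y) / (x - e) ^ 2 := by ring
            have hf' : e * 2 + r ≠ 0 := by rw [mul_comm]; exact hf
            rw [e3, e4]
            push_cast
            field_simp
          · intro h5
            rw [← sub_eq_zero, e3, div_eq_zero_iff] at h5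
            rcases h5 with h5 | h5
            · exact h4 (sub_eq_zero.1 ((mul_eq_zero.1 h5).resolve_left (mul_ne_zero her' hf)))
            · exact pow_ne_zero _ hxe' h5

/-- The square of the first function. -/
lemma Sh.sF_sq (hV : Sh V a b) (h2 : (2 : L) ≠ 0) (hr : r ^ 3 + a * r + b = 0)
    {Q : V.toAffine.Point} (hQ : Q + Q ≠ 0) :
    sF r (3 * r ^ 2 + a) Q ^ 2 = 3 * r ^ 2 + a ∨
    ∃ (Y : L) (h : V.toAffine.Nonsingular (r + sF r (3 * r ^ 2 + a) Q ^ 2) Y),
      Q + Q = Affine.Point.some _ _ h := by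
  match Q with
  | .zero => exact absurd (add_zero _) hQ
  | .some x y h =>
    have hy : y ≠ 0 := by
      rintro rfl
      exact hQ (hV.some_add_self h)
    have q := hV.eqn.1 h.1
    by_cases h4 : (x - r) ^ 2 = 3 * r ^ 2 + a
    · left
      simp only [sF, if_neg hy, if_pos h4]
      exact h4
    · right
      have hb : b = -(r ^ 3 + a * r) := by linear_combination hr
      have h5 : sF r (3 * r ^ 2 + a) (Affine.Point.some x y h) =
          ((x - r) ^ 2 - (3 * r ^ 2 + a)) / (2 * y) := by
        simp only [sF, if_neg hy, if_neg h4]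
      obtain ⟨h6, h7⟩ := hV.dbl h (mul_ne_zero h2 hy)
        (r + sF r (3 * r ^ 2 + a) (Affine.Point.some x y h) ^ 2) _ _ rfl (by
          rw [h5, div_pow, div_pow]
          field_simp
          rw [hb] at q
          linear_combination (-4 * (2 * x + r)) * q) rfl
      exact ⟨_, h6, h7⟩

/-- The second function. -/
noncomputable def tF (r : L) : V.toAffine.Point → L
  | .zero => 1
  | .some x y _ => if x = r then 1 else if y = 0 then 2 * x + r else y / (x - r)

/-- The ordinate on the isogenous curve. -/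
noncomputable def uF (r B : L) : V.toAffine.Point → L
  | .zero => 0
  | .some x y _ => y * ((x - r) ^ 2 - B) / (x - r) ^ 2

lemma Sh.tF_ne (hV : Sh V a b) (hr : r ^ 3 + a * r + b = 0) (hD : 3 * r ^ 2 + 4 * a ≠ 0)
    (Q : V.toAffine.Point) : tF r Q ≠ 0 := by
  match Q with
  | .zero => exact one_ne_zero
  | .some x y h =>
    rw [tF]
    split_ifs with h3 h4
    · exact one_ne_zero
    · intro h5
      subst h4
      apply hD
      have := hV.two_root hr h h3
      linear_combination 4 * this - (2 * x + r) * h5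
    · exact div_ne_zero h4 (sub_ne_zero.2 h3)

lemma Sh.tF_add (hV : Sh V a b) (hr : r ^ 3 + a * r + b = 0)
    (hB : 3 * r ^ 2 + a ≠ 0) (hD : 3 * r ^ 2 + 4 * a ≠ 0) {Q : V.toAffine.Point}
    (hQ : ¬Tr r Q) (h' : V.toAffine.Nonsingular r 0) :
    tF r (Q + Affine.Point.some r 0 h') = -tF r Q ∧
      uF r (3 * r ^ 2 + a) (Q + Affine.Point.some r 0 h') = uF r (3 * r ^ 2 + a) Q := by
  match Q with
  | .zero => exact absurd (Or.inl rfl) hQ
  | .some x y h =>
    have q := hV.eqn.1 h.1
    have hb : b = -(r ^ 3 + a * r) := by linear_combination hr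
    have hxr : x ≠ r := by
      rintro rfl
      apply hQ
      have : y = 0 := by
        have : y ^ 2 = 0 := by rw [q, hb]; ring
        exact pow_eq_zero_iff (two_ne_zero) |>.1 this
      subst this
      exact Or.inr ⟨h, rfl⟩
    have hxr' : x - r ≠ 0 := sub_ne_zero.2 hxr
    obtain ⟨h'', e1⟩ := hV.trans h h' hxr
    rw [e1]
    have hX : r + (3 * r ^ 2 + a) / (x - r) ≠ r := by
      intro h0
      have : (3 * r ^ 2 + a) / (x - r) = 0 := by linear_combination h0
      exact div_ne_zero hB hxr' this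
    have e2 : r + (3 * r ^ 2 + a) / (x - r) - r = (3 * r ^ 2 + a) / (x - r) := by ring
    refine ⟨?_, ?_⟩
    · by_cases hy : y = 0
      · subst hy
        have e0 := hV.two_root hr h hxr
        simp only [tF, if_neg hxr, if_neg hX, mul_zero, zero_div, if_true]
        field_simp
        linear_combination 2 * e0
      · have hy' : -(3 * r ^ 2 + a) * y / (x - r) ^ 2 ≠ 0 :=
          div_ne_zero (mul_ne_zero (neg_ne_zero.2 hB) hy) (pow_ne_zero _ hxr')
        simp only [tF, if_neg hxr, if_neg hX, if_neg hy, if_neg hy', e2]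
        field_simp
    · simp only [uF, e2]
      field_simp
      ring

lemma Sh.tF_sq (hV : Sh V a b) (hr : r ^ 3 + a * r + b = 0) {Q : V.toAffine.Point}
    (hQ : ¬Tr r Q) :
    tF r Q ^ 2 = -3 * r ^ 2 - 4 * a ∨ uF r (3 * r ^ 2 + a) Q ^ 2 =
      tF r Q ^ 2 * ((tF r Q ^ 2) ^ 2 + (-6 * r) * tF r Q ^ 2 + (-3 * r ^ 2 - 4 * a)) := by
  match Q with
  | .zero => exact absurd (Or.inl rfl) hQ
  | .some x y h =>
    have q := hV.eqn.1 h.1
    have hb : b = -(r ^ 3 + a * r) := by linear_combination hr
    have hxr : x ≠ r := by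
      rintro rfl
      apply hQ
      have : y = 0 := by
        have : y ^ 2 = 0 := by rw [q, hb]; ring
        exact pow_eq_zero_iff (two_ne_zero) |>.1 this
      subst this
      exact Or.inr ⟨h, rfl⟩
    have hxr' : x - r ≠ 0 := sub_ne_zero.2 hxr
    by_cases hy : y = 0
    · left
      subst hy
      have e0 := hV.two_root hr h hxr
      simp only [tF, if_neg hxr, if_true]
      linear_combination 4 * e0
    · right
      simp only [tF, uF, if_neg hxr, if_neg hy]
      have q2 : y ^ 2 = (x - r) * (x ^ 2 + r * x + r ^ 2 + a) := by rw [q, hb]; ring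
      have q3 : (y / (x - r)) ^ 2 = (x ^ 2 + r * x + r ^ 2 + a) / (x - r) := by
        rw [div_pow, q2]
        field_simp
      have q4 : y * ((x - r) ^ 2 - (3 * r ^ 2 + a)) / (x - r) ^ 2 =
          (y / (x - r)) * (((x - r) ^ 2 - (3 * r ^ 2 + a)) / (x - r)) := by
        field_simp
      rw [q4, mul_pow, q3]
      congr 1
      field_simp
      ring

end

end Pool.Agent.Helper45.AV
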