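import Pool.Agent.Helper45.AV.SrbA
import Pool.Agent.Helper91.AV.SelDef

/-!
# The two characters of the 2-torsion of a curve with a point of order two: Galois theory
(module for helper91)
-/

set_option autoImplicit false

open WeierstrassCurve

namespace Pool.Agent.Helper45.AV

open Pool.Agent.TH841.SH.D (Pt act Gal Coch IsCoc LocTriv)

lemma restr {F K : Type} [Field F] [Field K] [Algebra F K]
    (ι : AlgebraicClosure F →ₐ[F] AlgebraicClosure K) (τ : Gal K) :
    ∃ σ : Gal F, ∀ x, τ (ι x) = ι (σ x) := by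
  let : Algebra (AlgebraicClosure F) (AlgebraicClosure K) := ι.toRingHom.toAlgebra
  have : IsScalarTower F (AlgebraicClosure F) (AlgebraicClosure K) :=
    IsScalarTower.of_algebraMap_eq (fun x => (ι.commutes x).symm)
  refine ⟨(τ.restrictScalars F).restrictNormal (AlgebraicClosure F), fun x => ?_⟩
  exact (AlgEquiv.restrictNormal_commutes (τ.restrictScalars F) (AlgebraicClosure F) x).symm

lemma fixed_mem {K : Type} [Field K] [CharZero K] (x : AlgebraicClosure K)
    (h : ∀ τ : Gal K, τ x = x) : ∃ y : K, algebraMap K (AlgebraicClosure K) y = x :=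
  (InfiniteGalois.mem_range_algebraMap_iff_fixed x).2 h

/-- Quadratic characters. -/
lemma quad {F : Type} [Field F] [CharZero F] (χ : Gal F → ℤˣ) (hc : IsLocallyConstant χ)
    (hm : ∀ σ τ, χ (σ * τ) = χ σ * χ τ) :
    ∃ δ : AlgebraicClosure F, δ ≠ 0 ∧ ∀ σ : Gal F, σ δ = ((χ σ : ℤˣ) : ℤ) * δ := by
  by_cases h1 : ∀ σ, χ σ = 1
  · exact ⟨1, one_ne_zero, fun σ => by rw [h1]; simp⟩
  · push Not at h1
    obtain ⟨σ0, hσ0⟩ := h1
    have hone : χ 1 = 1 := by
      have := hm 1 1
      rw [one_mul] at this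
      exact (mul_eq_left.1 this.symm)
    let φ : Gal F →* ℤˣ := ⟨⟨χ, hone⟩, hm⟩
    let H : ClosedSubgroup (Gal F) := ⟨φ.ker, by
      change IsClosed (χ ⁻¹' {1})
      exact hc.isClosed_fiber 1⟩
    have hH : ∀ σ : Gal F, σ ∈ H.toSubgroup ↔ χ σ = 1 := fun σ => Iff.rfl
    have h2 := InfiniteGalois.fixingSubgroup_fixedField H
    have h3 : σ0 ∉ (IntermediateField.fixedField H.toSubgroup).fixingSubgroup := by
      rw [h2, hH]
      exact hσ0
    rw [IntermediateField.mem_fixingSubgroup_iff] at h3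
    push Not at h3
    obtain ⟨α, hα, hne⟩ := h3
    have hα' : ∀ σ, χ σ = 1 → σ α = α := by
      intro σ hσ
      rw [IntermediateField.mem_fixedField_iff] at hα
      exact hα σ hσ
    have hneg : ∀ σ, χ σ ≠ 1 → χ σ = -1 := fun σ h => (Int.units_eq_one_or (χ σ)).resolve_left h
    have hinv : ∀ σ, χ σ⁻¹ = χ σ := by
      intro σ
      have := map_inv φ σ
      change χ σ⁻¹ = (χ σ)⁻¹ at this
      rw [this]
      exact Int.units_inv_eq_self _
    -- all the other automorphisms act on `α` in the same way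
    have hsame : ∀ σ, χ σ ≠ 1 → σ α = σ0 α := by
      intro σ hσ
      have h4 : χ (σ0⁻¹ * σ) = 1 := by
        rw [hm, hinv, hneg σ hσ, hneg σ0 hσ0]
        rfl
      have h5 := hα' _ h4
      have h6 := congrArg σ0 h5
      rw [AlgEquiv.mul_apply] at h6
      have h7 : σ0 (σ0⁻¹ (σ α)) = σ α := by
        rw [← AlgEquiv.mul_apply, mul_inv_cancel]
        rfl
      rw [h7] at h6
      exact h6
    refine ⟨α - σ0 α, sub_ne_zero.2 (Ne.symm hne), fun σ => ?_⟩
    rw [map_sub]
    by_cases hσ : χ σ = 1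
    · rw [hσ, hα' σ hσ, ← AlgEquiv.mul_apply, hsame (σ * σ0) (by rw [hm, hσ, one_mul]; exact hσ0)]
      simp
    · rw [hneg σ hσ, hsame σ hσ, ← AlgEquiv.mul_apply, hα' (σ * σ0) (by
        rw [hm, hneg σ hσ, hneg σ0 hσ0]; rfl)]
      push_cast
      ring

/-- The values of the coordinate on the isogenous curves. -/
lemma evV {K Γ : Type} [Field K] [LinearOrderedCommGroupWithZero Γ] (w : Valuation K Γ) {A B X Y : K}
    (hA : w A ≤ 1) (hB : w B = 1) (hX : X ≠ 0) (h : Y ^ 2 = X * (X ^ 2 + A * X + B)) :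
    ∃ γ : Γ, w X = γ ^ 2 := by
  have vx0 : w X ≠ 0 := by
    rw [Ne, Valuation.zero_iff]; exact hX
  rcases lt_trichotomy (w X) 1 with hx | hx | hx
  · have h1 : w (X ^ 2 + A * X) < 1 := by
      have e : X ^ 2 + A * X = X * (X + A) := by ring
      rw [e, map_mul]
      have h2 : w (X + A) ≤ 1 := (Valuation.map_add _ _ _).trans (max_le hx.le hA)
      exact mul_lt_one_of_lt_of_le hx h2
    have h3 : w (X ^ 2 + A * X + B) = 1 := by
      rw [Valuation.map_add_eq_of_lt_right _ (by rw [hB]; exact h1), hB]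
    refine ⟨w Y, ?_⟩
    rw [← map_pow, h, map_mul, h3, mul_one]
  · exact ⟨1, by rw [hx, one_pow]⟩
  · have h1 : w (A * X + B) ≤ w X := by
      refine (Valuation.map_add _ _ _).trans (max_le ?_ ?_)
      · rw [map_mul]
        exact mul_le_of_le_one_left' hA
      · rw [hB]; exact hx.le
    have h2 : w X < w (X ^ 2) := by
      rw [map_pow, pow_two]
      exact lt_mul_of_one_lt_left (zero_lt_iff.mpr vx0) hx
    have h3 : w (X ^ 2 + A * X + B) = w (X ^ 2) := by
      rw [add_assoc]
      exact Valuation.map_add_eq_of_lt_left _ (h1.trans_lt h2)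
    refine ⟨w Y / w X, ?_⟩
    rw [div_pow, ← map_pow, h, map_mul, h3, map_pow]
    field_simp

section

variable {F : Type} [Field F]

/-- The curve. -/
abbrev cW (a b : F) : WeierstrassCurve F := ⟨0, 0, 0, a, b⟩

lemma sh {a b : F} (L : Type) [Field L] [Algebra F L] :
    Sh ((cW a b).baseChange L) (algebraMap F L a) (algebraMap F L b) :=
  ⟨map_zero _, map_zero _, map_zero _, rfl, rfl⟩

variable {W : WeierstrassCurve F} {L M : Type} [Field L] [Algebra F L] [Field M] [Algebra F M]

lemma act_cases (φ : L →ₐ[F] M) (Q : Pt W L) :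
    (Q = 0 ∧ act W φ Q = 0) ∨ ∃ (x y : L) (h : (W.baseChange L).toAffine.Nonsingular x y)
      (h' : (W.baseChange M).toAffine.Nonsingular (φ x) (φ y)),
      Q = (Affine.Point.some x y h : (W.baseChange L).toAffine.Point) ∧
      act W φ Q = (Affine.Point.some (φ x) (φ y) h' : (W.baseChange M).toAffine.Point) := by
  match Q with
  | .zero => exact Or.inl ⟨rfl, map_zero _⟩
  | .some x y h => exact Or.inr ⟨x, y, h, _, rfl, rfl⟩

lemma act_injective (φ : L →ₐ[F] M) : Function.Injective (act W φ) :=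
  @Affine.Point.map_injective F F L M _ _ _ _ W (Classical.decEq L) (Classical.decEq M) _ _ _ _ _ _ _ φ

open scoped Classical

/-- The three functions on the points. -/
noncomputable def sF' (W : WeierstrassCurve F) (r B : L) (Q : Pt W L) : L :=
  sF (V := W.baseChange L) r B Q

/-- The second function. -/
noncomputable def tF' (W : WeierstrassCurve F) (r : L) (Q : Pt W L) : L :=
  tF (V := W.baseChange L) r Q

/-- The third function. -/
noncomputable def uF' (W : WeierstrassCurve F) (r B : L) (Q : Pt W L) : L :=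
  uF (V := W.baseChange L) r B Q

/-- The point is zero or `(r, 0)`. -/
def Tr' (W : WeierstrassCurve F) (r : L) (Q : Pt W L) : Prop := Tr (V := W.baseChange L) r Q

/-- The first character. -/
noncomputable def chi' (W : WeierstrassCurve F) (r : L) (Q : Pt W L) : ℤˣ :=
  chi (V := W.baseChange L) r Q

/-- The second character. -/
noncomputable def psi' (Q : Pt W L) : ℤˣ := if Q = 0 then 1 else -1

lemma sF'_act (φ : L →ₐ[F] M) (r B : L) (Q : Pt W L) :
    sF' W (φ r) (φ B) (act W φ Q) = φ (sF' W r B Q) := by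
  rcases act_cases φ Q with ⟨rfl, h⟩ | ⟨x, y, h, h', rfl, e⟩
  · rw [h]
    exact (map_one φ).symm
  · rw [e]
    change sF (V := W.baseChange M) (φ r) (φ B) (Affine.Point.some (φ x) (φ y) h') =
      φ (sF (V := W.baseChange L) r B (Affine.Point.some x y h))
    have e1 : (φ y = 0) ↔ y = 0 := map_eq_zero_iff φ φ.injective
    have e2 : ((φ x - φ r) ^ 2 = φ B) ↔ (x - r) ^ 2 = B := by
      rw [← map_sub, ← map_pow]
      exact φ.injective.eq_iff
    simp only [sF, e1, e2]
    split_ifs
    · exact (map_one φ).symm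
    · exact (map_sub φ _ _).symm
    · simp only [map_div₀, map_sub, map_pow, map_mul, map_ofNat]

lemma tF'_act (φ : L →ₐ[F] M) (r : L) (Q : Pt W L) :
    tF' W (φ r) (act W φ Q) = φ (tF' W r Q) := by
  rcases act_cases φ Q with ⟨rfl, h⟩ | ⟨x, y, h, h', rfl, e⟩
  · rw [h]
    exact (map_one φ).symm
  · rw [e]
    change tF (V := W.baseChange M) (φ r) (Affine.Point.some (φ x) (φ y) h') =
      φ (tF (V := W.baseChange L) r (Affine.Point.some x y h))
    have e1 : (φ y = 0) ↔ y = 0 := map_eq_zero_iff φ φ.injective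
    have e2 : (φ x = φ r) ↔ x = r := φ.injective.eq_iff
    simp only [tF, e1, e2]
    split_ifs
    · exact (map_one φ).symm
    · simp only [map_add, map_mul, map_ofNat]
    · simp only [map_div₀, map_sub]

lemma uF'_act (φ : L →ₐ[F] M) (r B : L) (Q : Pt W L) :
    uF' W (φ r) (φ B) (act W φ Q) = φ (uF' W r B Q) := by
  rcases act_cases φ Q with ⟨rfl, h⟩ | ⟨x, y, h, h', rfl, e⟩
  · rw [h]
    exact (map_zero φ).symm
  · rw [e]
    change uF (V := W.baseChange M) (φ r) (φ B) (Affine.Point.some (φ x) (φ y) h') =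
      φ (uF (V := W.baseChange L) r B (Affine.Point.some x y h))
    simp only [uF, map_div₀, map_sub, map_pow, map_mul]

lemma Tr'_act (φ : L →ₐ[F] M) (r : L) (Q : Pt W L) : Tr' W (φ r) (act W φ Q) ↔ Tr' W r Q := by
  rcases act_cases φ Q with ⟨rfl, h⟩ | ⟨x, y, h, h', rfl, e⟩
  · rw [h]
    exact ⟨fun _ => Or.inl rfl, fun _ => Or.inl rfl⟩
  · rw [e]
    constructor
    · rintro (h0 | ⟨h0, h1⟩)
      · exact absurd h0 (Affine.Point.some_ne_zero _)
      · simp only [Affine.Point.some.injEq] at h1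
        obtain ⟨h2, h3⟩ := h1
        have h4 := φ.injective h2
        have h5 : y = 0 := (map_eq_zero_iff φ φ.injective).1 h3
        subst h4
        subst h5
        exact Or.inr ⟨h, rfl⟩
    · rintro (h0 | ⟨h0, h1⟩)
      · exact absurd h0 (Affine.Point.some_ne_zero _)
      · simp only [Affine.Point.some.injEq] at h1
        obtain ⟨h2, h3⟩ := h1
        subst h2
        subst h3
        have : ∀ (y' : M) (hy' : y' = 0) (h' : (W.baseChange M).toAffine.Nonsingular (φ x) y'),
            Tr' W (φ x) (Affine.Point.some (φ x) y' h' : (W.baseChange M).toAffine.Point) := by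
          rintro _ rfl h'
          exact Or.inr ⟨h', rfl⟩
        exact this _ (map_zero φ) h'

lemma chi'_act (φ : L →ₐ[F] M) (r : L) (Q : Pt W L) : chi' W (φ r) (act W φ Q) = chi' W r Q := by
  by_cases h : Tr' W r Q
  · exact (if_pos ((Tr'_act φ r Q).2 h)).trans (if_pos h).symm
  · exact (if_neg (fun h' => h ((Tr'_act φ r Q).1 h'))).trans (if_neg h).symm

lemma psi'_act (φ : L →ₐ[F] M) (Q : Pt W L) : psi' (act W φ Q) = psi' Q := by
  have h : act W φ Q = 0 ↔ Q = 0 := map_eq_zero_iff _ (act_injective φ)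
  simp only [psi', h]

end

section

variable {F : Type} [Field F] {a b r : F} {L : Type} [Field L] [Algebra F L]

open scoped Classical

lemma chi'_add (h2 : (2 : L) ≠ 0) (hr : r ^ 3 + a * r + b = 0) {U U' : Pt (cW a b) L}
    (hU2 : U + U = 0) (hU'2 : U' + U' = 0) :
    chi' (cW a b) (algebraMap F L r) (U + U') =
      chi' (cW a b) (algebraMap F L r) U * chi' (cW a b) (algebraMap F L r) U' := by
  refine (sh L).chi_add (V := (cW a b).baseChange L) h2 ?_ hU2 hU'2
  simp only [← map_pow, ← map_mul, ← map_add, hr, map_zero]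

lemma sF'_add (h2 : (2 : L) ≠ 0) (hr : r ^ 3 + a * r + b = 0)
    (hB : 3 * r ^ 2 + a ≠ 0) (hD : 3 * r ^ 2 + 4 * a ≠ 0) {Q U : Pt (cW a b) L}
    (hQ : Q + Q ≠ 0) (hU : U + U = 0) :
    sF' (cW a b) (algebraMap F L r) (algebraMap F L (3 * r ^ 2 + a)) (Q + U) =
      ((chi' (cW a b) (algebraMap F L r) U : ℤˣ) : ℤ) *
        sF' (cW a b) (algebraMap F L r) (algebraMap F L (3 * r ^ 2 + a)) Q := by
  have e : algebraMap F L (3 * r ^ 2 + a) = 3 * (algebraMap F L r) ^ 2 + algebraMap F L a := by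
    simp only [map_add, map_mul, map_pow, map_ofNat]
  have e' : algebraMap F L (3 * r ^ 2 + 4 * a) = 3 * (algebraMap F L r) ^ 2 +
      4 * algebraMap F L a := by
    simp only [map_add, map_mul, map_pow, map_ofNat]
  rw [e]
  refine (sh L).sF_add (V := (cW a b).baseChange L) h2 ?_ ?_ ?_ hQ hU
  · simp only [← map_pow, ← map_mul, ← map_add, hr, map_zero]
  · rw [← e]
    exact (map_ne_zero_iff _ (algebraMap F L).injective).2 hB
  · rw [← e']
    exact (map_ne_zero_iff _ (algebraMap F L).injective).2 hD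

lemma sF'_ne (h2 : (2 : L) ≠ 0) (hB : 3 * r ^ 2 + a ≠ 0) (Q : Pt (cW a b) L) :
    sF' (cW a b) (algebraMap F L r) (algebraMap F L (3 * r ^ 2 + a)) Q ≠ 0 :=
  sF_ne (V := (cW a b).baseChange L) h2 ((map_ne_zero_iff _ (algebraMap F L).injective).2 hB) Q

lemma sF'_sq (h2 : (2 : L) ≠ 0) (hr : r ^ 3 + a * r + b = 0) {Q : Pt (cW a b) L}
    (hQ : Q + Q ≠ 0) :
    sF' (cW a b) (algebraMap F L r) (algebraMap F L (3 * r ^ 2 + a)) Q ^ 2 =
      algebraMap F L (3 * r ^ 2 + a) ∨
    ∃ (Y : L) (h : ((cW a b).baseChange L).toAffine.Nonsingular (algebraMap F L r +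
      sF' (cW a b) (algebraMap F L r) (algebraMap F L (3 * r ^ 2 + a)) Q ^ 2) Y),
      Q + Q = (Affine.Point.some _ _ h : ((cW a b).baseChange L).toAffine.Point) := by
  have e : algebraMap F L (3 * r ^ 2 + a) = 3 * (algebraMap F L r) ^ 2 + algebraMap F L a := by
    simp only [map_add, map_mul, map_pow, map_ofNat]
  rw [e]
  refine (sh L).sF_sq (V := (cW a b).baseChange L) h2 ?_ hQ
  simp only [← map_pow, ← map_mul, ← map_add, hr, map_zero]

lemma tF'_ne (hr : r ^ 3 + a * r + b = 0) (hD : 3 * r ^ 2 + 4 * a ≠ 0) (Q : Pt (cW a b) L) :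
    tF' (cW a b) (algebraMap F L r) Q ≠ 0 := by
  have e' : algebraMap F L (3 * r ^ 2 + 4 * a) = 3 * (algebraMap F L r) ^ 2 +
      4 * algebraMap F L a := by
    simp only [map_add, map_mul, map_pow, map_ofNat]
  refine (sh L).tF_ne (V := (cW a b).baseChange L) ?_ ?_ Q
  · simp only [← map_pow, ← map_mul, ← map_add, hr, map_zero]
  · rw [← e']
    exact (map_ne_zero_iff _ (algebraMap F L).injective).2 hD

lemma tF'_add (hr : r ^ 3 + a * r + b = 0)
    (hB : 3 * r ^ 2 + a ≠ 0) (hD : 3 * r ^ 2 + 4 * a ≠ 0) {Q U : Pt (cW a b) L}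
    (hQ : ¬Tr' (cW a b) (algebraMap F L r) Q) (hU : Tr' (cW a b) (algebraMap F L r) U) :
    tF' (cW a b) (algebraMap F L r) (Q + U) =
      ((psi' U : ℤˣ) : ℤ) * tF' (cW a b) (algebraMap F L r) Q ∧
    uF' (cW a b) (algebraMap F L r) (algebraMap F L (3 * r ^ 2 + a)) (Q + U) =
      uF' (cW a b) (algebraMap F L r) (algebraMap F L (3 * r ^ 2 + a)) Q := by
  rcases hU with rfl | ⟨h', rfl⟩
  · have e0 : psi' (0 : Pt (cW a b) L) = 1 := if_pos rfl
    refine ⟨?_, ?_⟩
    · rw [show (0 : ((cW a b).baseChange L).toAffine.Point) = (0 : Pt (cW a b) L) from rfl, add_zero,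
        e0]
      simp
    · rw [show (0 : ((cW a b).baseChange L).toAffine.Point) = (0 : Pt (cW a b) L) from rfl, add_zero]
  · have e : algebraMap F L (3 * r ^ 2 + a) = 3 * (algebraMap F L r) ^ 2 + algebraMap F L a := by
      simp only [map_add, map_mul, map_pow, map_ofNat]
    have e' : algebraMap F L (3 * r ^ 2 + 4 * a) = 3 * (algebraMap F L r) ^ 2 +
        4 * algebraMap F L a := by
      simp only [map_add, map_mul, map_pow, map_ofNat]
    have e0 : psi' (W := cW a b) (L := L) (Affine.Point.some (algebraMap F L r) 0 h' :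
        ((cW a b).baseChange L).toAffine.Point) = -1 := if_neg (Affine.Point.some_ne_zero _)
    rw [e0, e]
    have h3 := (sh L).tF_add (V := (cW a b).baseChange L) (r := algebraMap F L r) (by
      simp only [← map_pow, ← map_mul, ← map_add, hr, map_zero]) (by
      rw [← e]
      exact (map_ne_zero_iff _ (algebraMap F L).injective).2 hB) (by
      rw [← e']
      exact (map_ne_zero_iff _ (algebraMap F L).injective).2 hD) hQ h'
    refine ⟨?_, h3.2⟩
    have h4 : (((-1 : ℤˣ) : ℤ) : L) * tF' (cW a b) (algebraMap F L r) Q =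
        -tF' (cW a b) (algebraMap F L r) Q := by
      push_cast
      ring
    rw [h4]
    exact h3.1

lemma tF'_sq (hr : r ^ 3 + a * r + b = 0) {Q : Pt (cW a b) L}
    (hQ : ¬Tr' (cW a b) (algebraMap F L r) Q) :
    tF' (cW a b) (algebraMap F L r) Q ^ 2 = algebraMap F L (-3 * r ^ 2 - 4 * a) ∨
    uF' (cW a b) (algebraMap F L r) (algebraMap F L (3 * r ^ 2 + a)) Q ^ 2 =
      tF' (cW a b) (algebraMap F L r) Q ^ 2 * ((tF' (cW a b) (algebraMap F L r) Q ^ 2) ^ 2 +
        algebraMap F L (-6 * r) * tF' (cW a b) (algebraMap F L r) Q ^ 2 +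
        algebraMap F L (-3 * r ^ 2 - 4 * a)) := by
  have e : algebraMap F L (3 * r ^ 2 + a) = 3 * (algebraMap F L r) ^ 2 + algebraMap F L a := by
    simp only [map_add, map_mul, map_pow, map_ofNat]
  have e' : algebraMap F L (-3 * r ^ 2 - 4 * a) = -3 * (algebraMap F L r) ^ 2 -
      4 * algebraMap F L a := by
    simp only [map_sub, map_neg, map_mul, map_pow, map_ofNat]
  have e'' : algebraMap F L (-6 * r) = -6 * algebraMap F L r := by
    simp only [map_neg, map_mul, map_ofNat]
  rw [e, e', e'']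
  refine (sh L).tF_sq (V := (cW a b).baseChange L) ?_ hQ
  simp only [← map_pow, ← map_mul, ← map_add, hr, map_zero]

end

end Pool.Agent.Helper45.AV
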