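import Pool.Agent.Helper45.AV.SrbB

/-!
# The local conditions
(module for helper91)
-/

set_option autoImplicit false

open WeierstrassCurve
open scoped Classical

namespace Pool.Agent.Helper45.AV

open Pool.Agent.TH841.SH.D (Pt act Gal Coch IsCoc LocTriv)

section

variable {F : Type} [Field F] {a b r : F} {K : Type} [Field K] [Algebra F K] [CharZero K]
  {Γ : Type} [LinearOrderedCommGroupWithZero Γ] (w : Valuation K Γ)

lemma unit_ne (L : Type) [Field L] (u : ℤˣ) : ((u : ℤ) : L) ≠ 0 := by
  rcases Int.units_eq_one_or u with rfl | rfl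
  · simp
  · simp

lemma some_inj {L : Type} [Field L] {V : WeierstrassCurve L} {x y x' y' : L}
    {h : V.toAffine.Nonsingular x y} {h' : V.toAffine.Nonsingular x' y'}
    (e : Affine.Point.some x y h = Affine.Point.some x' y' h') : x = x' ∧ y = y' := by
  simpa only [Affine.Point.some.injEq] using e

lemma some_congr {L : Type} [Field L] {V : WeierstrassCurve L} {x y x' y' : L}
    {h : V.toAffine.Nonsingular x y} {h' : V.toAffine.Nonsingular x' y'} (e1 : x = x')
    (e2 : y = y') : Affine.Point.some x y h = Affine.Point.some x' y' h' := by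
  subst e1
  subst e2
  rfl

lemma act_point_fix {W : WeierstrassCurve F} {L : Type} [Field L] [Algebra F L] (φ : L →ₐ[F] L)
    (x y : L) (h : (W.baseChange L).toAffine.Nonsingular x y)
    (e : act W φ (Affine.Point.some x y h : (W.baseChange L).toAffine.Point) =
      (Affine.Point.some x y h : (W.baseChange L).toAffine.Point)) : φ x = x ∧ φ y = y := by
  rcases act_cases φ (Affine.Point.some x y h : (W.baseChange L).toAffine.Point) with
    ⟨h0, -⟩ | ⟨x', y', h1, h2, e1, e2⟩
  · exact absurd h0 (Affine.Point.some_ne_zero _)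
  · rw [e2] at e
    have e3 := some_inj (V := W.baseChange L) e
    have e4 := some_inj (V := W.baseChange L) e1
    rw [← e4.1, ← e4.2] at e3
    exact e3

/-- The first local condition. -/
theorem loc1 (hr : r ^ 3 + a * r + b = 0) (hB : 3 * r ^ 2 + a ≠ 0) (hD : 3 * r ^ 2 + 4 * a ≠ 0)
    (hA : w (algebraMap F K (3 * r)) ≤ 1) (hBw : w (algebraMap F K (3 * r ^ 2 + a)) = 1)
    (f : Coch (cW a b)) (h2f : ∀ σ, f σ + f σ = 0) (hloc : LocTriv (cW a b) K f)
    (δ : AlgebraicClosure F) (hδ0 : δ ≠ 0)
    (hδ : ∀ σ : Gal F, σ δ =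
      ((chi' (cW a b) (algebraMap F (AlgebraicClosure F) r) (f σ) : ℤˣ) : ℤ) * δ)
    (d : F) (hd : algebraMap F (AlgebraicClosure F) d = δ ^ 2) :
    ∃ γ : Γ, w (algebraMap F K d) = γ ^ 2 := by
  let ι : AlgebraicClosure F →ₐ[F] AlgebraicClosure K := IsAlgClosed.lift
  obtain ⟨Q, hQ⟩ := hloc ι
  have h2 : (2 : AlgebraicClosure K) ≠ 0 := two_ne_zero
  set ρ := algebraMap F (AlgebraicClosure K) r with hρ
  set β := algebraMap F (AlgebraicClosure K) (3 * r ^ 2 + a) with hβ
  have hιρ : ι (algebraMap F (AlgebraicClosure F) r) = ρ := ι.commutes r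
  have key : ∀ τ : Gal K, ∃ U : Pt (cW a b) (AlgebraicClosure K), U + U = 0 ∧
      act (cW a b) (τ.toAlgHom.restrictScalars F) Q = Q + U ∧
      τ (ι δ) = ((chi' (cW a b) ρ U : ℤˣ) : ℤ) * ι δ := by
    intro τ
    obtain ⟨σ, hσ⟩ := restr ι τ
    refine ⟨act (cW a b) ι (f σ), ?_, ?_, ?_⟩
    · rw [← map_add, h2f, map_zero]
    · rw [hQ τ σ hσ]
      abel
    · rw [hσ, hδ, map_mul, map_intCast, ← hιρ, chi'_act]
  have hττ : ∀ (τ : Gal K) (x : F), τ (algebraMap F (AlgebraicClosure K) x) =
      algebraMap F (AlgebraicClosure K) x := fun τ x => (τ.toAlgHom.restrictScalars F).commutes x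
  have hδ' : ι δ ≠ 0 := (map_ne_zero_iff ι ι.injective).2 hδ0
  have hdK : algebraMap K (AlgebraicClosure K) (algebraMap F K d) = (ι δ) ^ 2 := by
    rw [← map_pow, ← hd, ι.commutes, ← IsScalarTower.algebraMap_apply]
  by_cases hQQ : Q + Q = 0
  · obtain ⟨c, hc⟩ := fixed_mem (ι δ) (by
      intro τ
      obtain ⟨U, hU, hQU, hUδ⟩ := key τ
      have h3 : chi' (cW a b) ρ (act (cW a b) (τ.toAlgHom.restrictScalars F) Q) =
          chi' (cW a b) ρ Q := by
        have := chi'_act (W := cW a b) (τ.toAlgHom.restrictScalars F) ρ Q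
        rw [show (τ.toAlgHom.restrictScalars F) ρ = ρ from hττ τ r] at this
        exact this
      rw [hQU, chi'_add h2 hr hQQ hU] at h3
      have h4 : chi' (cW a b) ρ U = 1 := mul_eq_left.1 h3
      rw [hUδ, h4]
      simp)
    refine ⟨w c, ?_⟩
    rw [← map_pow]
    congr 1
    apply (algebraMap K (AlgebraicClosure K)).injective
    rw [hdK, map_pow, hc]
  · set s := sF' (cW a b) ρ β Q with hs
    have hs0 : s ≠ 0 := sF'_ne h2 hB Q
    have hτs : ∀ (τ : Gal K) (U : Pt (cW a b) (AlgebraicClosure K)), U + U = 0 →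
        act (cW a b) (τ.toAlgHom.restrictScalars F) Q = Q + U →
        τ s = ((chi' (cW a b) ρ U : ℤˣ) : ℤ) * s := by
      intro τ U hU hQU
      have := sF'_act (W := cW a b) (τ.toAlgHom.restrictScalars F) ρ β Q
      rw [show (τ.toAlgHom.restrictScalars F) ρ = ρ from hττ τ r,
        show (τ.toAlgHom.restrictScalars F) β = β from hττ τ _, hQU, sF'_add h2 hr hB hD hQQ hU] at this
      exact this.symm
    obtain ⟨c, hc⟩ := fixed_mem (ι δ / s) (by
      intro τ
      obtain ⟨U, hU, hQU, hUδ⟩ := key τ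
      rw [map_div₀, hUδ, hτs τ U hU hQU]
      exact mul_div_mul_left _ _ (unit_ne _ _))
    have hc0 : c ≠ 0 := by
      rintro rfl
      rw [map_zero] at hc
      exact div_ne_zero hδ' hs0 hc.symm
    set e := algebraMap F K d / c ^ 2 with he
    have he' : algebraMap K (AlgebraicClosure K) e = s ^ 2 := by
      rw [he, map_div₀, hdK, map_pow, hc, div_pow]
      field_simp
    have hde : algebraMap F K d = e * c ^ 2 := by
      rw [he]
      field_simp
    have he0 : e ≠ 0 := by
      intro h0
      rw [h0, map_zero] at he'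
      exact pow_ne_zero 2 hs0 he'.symm
    obtain ⟨γ, hγ⟩ : ∃ γ : Γ, w e = γ ^ 2 := by
      rcases sF'_sq (L := AlgebraicClosure K) h2 hr hQQ with h5 | ⟨Y, h, h6⟩
      · refine ⟨1, ?_⟩
        rw [one_pow, ← hBw]
        congr 1
        apply (algebraMap K (AlgebraicClosure K)).injective
        rw [he', ← IsScalarTower.algebraMap_apply]
        exact h5
      · obtain ⟨y0, hy0⟩ := fixed_mem Y (by
          intro τ
          obtain ⟨U, hU, hQU, -⟩ := key τ
          have h7 : act (cW a b) (τ.toAlgHom.restrictScalars F) (Q + Q) = Q + Q := by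
            rw [map_add, hQU]
            calc Q + U + (Q + U) = Q + Q + (U + U) := by abel
              _ = _ := by rw [hU, add_zero]
          rw [h6] at h7
          exact (act_point_fix _ _ _ _ h7).2)
        have h8 := (sh (a := a) (b := b) (AlgebraicClosure K)).eqn.1 h.1
        refine evV w hA hBw he0 (Y := y0) ?_
        apply (algebraMap K (AlgebraicClosure K)).injective
        simp only [map_pow, map_mul, map_add, he', hy0, ← IsScalarTower.algebraMap_apply]
        rw [h8]
        have h9 := congrArg (algebraMap F (AlgebraicClosure K)) hr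
        simp only [map_pow, map_mul, map_add, map_zero] at h9
        change (ρ + s ^ 2) ^ 3 + algebraMap F (AlgebraicClosure K) a * (ρ + s ^ 2) +
          algebraMap F (AlgebraicClosure K) b = _
        rw [map_ofNat]
        linear_combination h9
    refine ⟨γ * w c, ?_⟩
    rw [hde, map_mul, hγ, map_pow]
    exact (mul_pow _ _ _).symm

/-- The second local condition. -/
theorem loc2 (hr : r ^ 3 + a * r + b = 0) (hB : 3 * r ^ 2 + a ≠ 0) (hD : 3 * r ^ 2 + 4 * a ≠ 0)
    (hA : w (algebraMap F K (-6 * r)) ≤ 1) (hBw : w (algebraMap F K (-3 * r ^ 2 - 4 * a)) = 1)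
    (f : Coch (cW a b)) (hT : ∀ σ, Tr' (cW a b) (algebraMap F (AlgebraicClosure F) r) (f σ))
    (hloc : LocTriv (cW a b) K f) (δ : AlgebraicClosure F) (hδ0 : δ ≠ 0)
    (hδ : ∀ σ : Gal F, σ δ = ((psi' (f σ) : ℤˣ) : ℤ) * δ)
    (d : F) (hd : algebraMap F (AlgebraicClosure F) d = δ ^ 2) :
    ∃ γ : Γ, w (algebraMap F K d) = γ ^ 2 := by
  let ι : AlgebraicClosure F →ₐ[F] AlgebraicClosure K := IsAlgClosed.lift
  obtain ⟨Q, hQ⟩ := hloc ι
  have h2 : (2 : AlgebraicClosure K) ≠ 0 := two_ne_zero
  set ρ := algebraMap F (AlgebraicClosure K) r with hρ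
  set β := algebraMap F (AlgebraicClosure K) (3 * r ^ 2 + a) with hβ
  have hιρ : ι (algebraMap F (AlgebraicClosure F) r) = ρ := ι.commutes r
  have key : ∀ τ : Gal K, ∃ U : Pt (cW a b) (AlgebraicClosure K), Tr' (cW a b) ρ U ∧
      act (cW a b) (τ.toAlgHom.restrictScalars F) Q = Q + U ∧
      τ (ι δ) = ((psi' U : ℤˣ) : ℤ) * ι δ := by
    intro τ
    obtain ⟨σ, hσ⟩ := restr ι τ
    refine ⟨act (cW a b) ι (f σ), ?_, ?_, ?_⟩
    · rw [← hιρ, Tr'_act]
      exact hT σ
    · rw [hQ τ σ hσ]
      abel
    · rw [hσ, hδ, map_mul, map_intCast, psi'_act]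
  have hττ : ∀ (τ : Gal K) (x : F), τ (algebraMap F (AlgebraicClosure K) x) =
      algebraMap F (AlgebraicClosure K) x := fun τ x => (τ.toAlgHom.restrictScalars F).commutes x
  have hδ' : ι δ ≠ 0 := (map_ne_zero_iff ι ι.injective).2 hδ0
  have hdK : algebraMap K (AlgebraicClosure K) (algebraMap F K d) = (ι δ) ^ 2 := by
    rw [← map_pow, ← hd, ι.commutes, ← IsScalarTower.algebraMap_apply]
  by_cases hQQ : Tr' (cW a b) ρ Q
  · obtain ⟨c, hc⟩ := fixed_mem (ι δ) (by
      intro τ
      obtain ⟨U, hU, hQU, hUδ⟩ := key τ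
      have h3 : act (cW a b) (τ.toAlgHom.restrictScalars F) Q = Q := by
        rcases hQQ with rfl | ⟨h', rfl⟩
        · exact map_zero _
        · rcases act_cases (W := cW a b) (τ.toAlgHom.restrictScalars F)
            (Affine.Point.some ρ 0 h' : ((cW a b).baseChange (AlgebraicClosure K)).toAffine.Point)
            with ⟨h0, -⟩ | ⟨x', y', h1, h4, e1, e2⟩
          · exact absurd h0 (Affine.Point.some_ne_zero _)
          · have e3 := some_inj (V := (cW a b).baseChange (AlgebraicClosure K)) e1
            refine e2.trans (some_congr (V := (cW a b).baseChange (AlgebraicClosure K)) ?_ ?_)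
            · rw [← e3.1]
              exact hττ τ r
            · rw [← e3.2]
              exact map_zero τ
      rw [h3] at hQU
      have h4 : U = 0 := by
        have : Q + U = Q + 0 := by rw [← hQU, add_zero]
        exact add_left_cancel this
      rw [hUδ, h4]
      have e0 : psi' (0 : Pt (cW a b) (AlgebraicClosure K)) = 1 := if_pos rfl
      rw [e0]
      simp)
    refine ⟨w c, ?_⟩
    rw [← map_pow]
    congr 1
    apply (algebraMap K (AlgebraicClosure K)).injective
    rw [hdK, map_pow, hc]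
  · set s := tF' (cW a b) ρ Q with hs
    have hs0 : s ≠ 0 := tF'_ne hr hD Q
    have hτs : ∀ (τ : Gal K) (U : Pt (cW a b) (AlgebraicClosure K)), Tr' (cW a b) ρ U →
        act (cW a b) (τ.toAlgHom.restrictScalars F) Q = Q + U →
        τ s = ((psi' U : ℤˣ) : ℤ) * s ∧ τ (uF' (cW a b) ρ β Q) = uF' (cW a b) ρ β Q := by
      intro τ U hU hQU
      have h7 := tF'_add hr hB hD hQQ hU
      refine ⟨?_, ?_⟩
      · have := tF'_act (W := cW a b) (τ.toAlgHom.restrictScalars F) ρ Q
        rw [show (τ.toAlgHom.restrictScalars F) ρ = ρ from hττ τ r, hQU, h7.1] at this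
        exact this.symm
      · have := uF'_act (W := cW a b) (τ.toAlgHom.restrictScalars F) ρ β Q
        rw [show (τ.toAlgHom.restrictScalars F) ρ = ρ from hττ τ r,
          show (τ.toAlgHom.restrictScalars F) β = β from hττ τ _, hQU, h7.2] at this
        exact this.symm
    obtain ⟨c, hc⟩ := fixed_mem (ι δ / s) (by
      intro τ
      obtain ⟨U, hU, hQU, hUδ⟩ := key τ
      rw [map_div₀, hUδ, (hτs τ U hU hQU).1]
      exact mul_div_mul_left _ _ (unit_ne _ _))
    have hc0 : c ≠ 0 := by
      rintro rfl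
      rw [map_zero] at hc
      exact div_ne_zero hδ' hs0 hc.symm
    set e := algebraMap F K d / c ^ 2 with he
    have he' : algebraMap K (AlgebraicClosure K) e = s ^ 2 := by
      rw [he, map_div₀, hdK, map_pow, hc, div_pow]
      field_simp
    have hde : algebraMap F K d = e * c ^ 2 := by
      rw [he]
      field_simp
    have he0 : e ≠ 0 := by
      intro h0
      rw [h0, map_zero] at he'
      exact pow_ne_zero 2 hs0 he'.symm
    obtain ⟨γ, hγ⟩ : ∃ γ : Γ, w e = γ ^ 2 := by
      rcases tF'_sq (L := AlgebraicClosure K) hr hQQ with h5 | h6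
      · refine ⟨1, ?_⟩
        rw [one_pow, ← hBw]
        congr 1
        apply (algebraMap K (AlgebraicClosure K)).injective
        rw [he', ← IsScalarTower.algebraMap_apply]
        exact h5
      · obtain ⟨y0, hy0⟩ := fixed_mem (uF' (cW a b) ρ β Q) (by
          intro τ
          obtain ⟨U, hU, hQU, -⟩ := key τ
          exact (hτs τ U hU hQU).2)
        refine evV w hA hBw he0 (Y := y0) ?_
        apply (algebraMap K (AlgebraicClosure K)).injective
        have h9 : algebraMap K (AlgebraicClosure K) (e * (e ^ 2 + algebraMap F K (-6 * r) * e +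
            algebraMap F K (-3 * r ^ 2 - 4 * a))) = s ^ 2 * ((s ^ 2) ^ 2 +
            algebraMap F (AlgebraicClosure K) (-6 * r) * s ^ 2 +
            algebraMap F (AlgebraicClosure K) (-3 * r ^ 2 - 4 * a)) := by
          rw [RingHom.map_mul, RingHom.map_add, RingHom.map_add, RingHom.map_mul, RingHom.map_pow,
            he', ← IsScalarTower.algebraMap_apply, ← IsScalarTower.algebraMap_apply]
        rw [h9, map_pow, hy0]
        exact h6
    refine ⟨γ * w c, ?_⟩
    rw [hde, map_mul, hγ, map_pow]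
    exact (mul_pow _ _ _).symm

end

end Pool.Agent.Helper45.AV
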