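import Pool.Agent.Helper45.AV.SrbC

/-!
# Counting the cocycles
(module for helper91)
-/

set_option autoImplicit false
set_option linter.unusedSectionVars false

open WeierstrassCurve
open scoped Classical

namespace Pool.Agent.Helper45.AV

open Pool.Agent.TH841.SH.D (Pt act Gal Coch IsCoc LocTriv)
open Pool.Agent.Helper91.AV (selCoc cobTor Selmer)

section

variable {F : Type} [Field F] [CharZero F]

/-- `χ` is the character of the square root of `t`. -/
def PK (t : F) (χ : Gal F → ℤˣ) : Prop :=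
  ∃ δ : AlgebraicClosure F, δ ≠ 0 ∧ δ ^ 2 = algebraMap F (AlgebraicClosure F) t ∧
    ∀ σ : Gal F, σ δ = ((χ σ : ℤˣ) : ℤ) * δ

lemma PK.unique {t : F} {χ χ' : Gal F → ℤˣ} (h : PK t χ) (h' : PK t χ') : χ = χ' := by
  obtain ⟨δ, hδ0, hδ, h1⟩ := h
  obtain ⟨δ', hδ0', hδ', h1'⟩ := h'
  funext σ
  have h2 : δ' = δ ∨ δ' = -δ := sq_eq_sq_iff_eq_or_eq_neg.1 (by rw [hδ, hδ'])
  have h3 : σ δ = ((χ' σ : ℤˣ) : ℤ) * δ := by
    rcases h2 with rfl | rfl
    · exact h1' σ
    · have := h1' σ
      rw [map_neg] at this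
      linear_combination (-1) * this
  rw [h1 σ] at h3
  have h4 := mul_right_cancel₀ hδ0 h3
  have h5 : ((χ σ : ℤˣ) : ℤ) = ((χ' σ : ℤˣ) : ℤ) := by exact_mod_cast h4
  exact Units.ext h5

/-- Multiplying by a square. -/
lemma PK.sq {t d c : F} {χ : Gal F → ℤˣ} (h : PK d χ) (hc : c ≠ 0) (hd : d = t * c ^ 2) :
    PK t χ := by
  obtain ⟨δ, hδ0, hδ, h1⟩ := h
  have hc' : algebraMap F (AlgebraicClosure F) c ≠ 0 :=
    (map_ne_zero_iff _ (algebraMap F (AlgebraicClosure F)).injective).2 hc
  refine ⟨δ / algebraMap F (AlgebraicClosure F) c, div_ne_zero hδ0 hc', ?_, fun σ => ?_⟩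
  · rw [div_pow, hδ, hd, map_mul, map_pow]
    field_simp
  · rw [map_div₀, h1, AlgEquiv.commutes, mul_div_assoc]

/-- A locally constant character is the character of a square root. -/
lemma PK.exists (χ : Gal F → ℤˣ) (hc : IsLocallyConstant χ)
    (hm : ∀ σ τ, χ (σ * τ) = χ σ * χ τ) : ∃ d : F, d ≠ 0 ∧ PK d χ := by
  obtain ⟨δ, hδ0, h1⟩ := quad χ hc hm
  obtain ⟨d, hd⟩ := fixed_mem (δ ^ 2) (by
    intro σ
    rw [map_pow, h1, mul_pow]
    have : (((χ σ : ℤˣ) : ℤ) : AlgebraicClosure F) ^ 2 = 1 := by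
      rcases Int.units_eq_one_or (χ σ) with h | h
      · rw [h]; simp
      · rw [h]; simp
    rw [this, one_mul])
  refine ⟨d, ?_, δ, hδ0, hd.symm, h1⟩
  rintro rfl
  rw [map_zero] at hd
  exact pow_ne_zero 2 hδ0 hd.symm

/-- The set of functions which are determined by two characters. -/
theorem count {a b r : F} (hr : r ^ 3 + a * r + b = 0) (T : Finset F)
    (S : AddSubgroup (Coch (cW a b))) (h2 : ∀ f ∈ S, ∀ σ, f σ + f σ = 0)
    (hχ : ∀ f ∈ S, ∃ t ∈ T, PK t
      (fun σ => chi' (cW a b) (algebraMap F (AlgebraicClosure F) r) (f σ)))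
    (hψ : ∀ f ∈ S, (∀ σ, Tr' (cW a b) (algebraMap F (AlgebraicClosure F) r) (f σ)) →
      ∃ t ∈ T, PK t (fun σ => psi' (f σ))) :
    ∃ E : Finset (Coch (cW a b)), E.card ≤ T.card ^ 2 ∧ ∀ f ∈ S, f ∈ E := by
  have htwo : (2 : AlgebraicClosure F) ≠ 0 := two_ne_zero
  set ρ := algebraMap F (AlgebraicClosure F) r with hρ
  let G : F → Coch (cW a b) := fun t =>
    if h : ∃ g ∈ S, PK t (fun σ => chi' (cW a b) ρ (g σ)) then Classical.choose h else 0
  let H : F → Gal F → ℤˣ := fun t => if h : ∃ χ, PK t χ then Classical.choose h else 1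
  let T0 : Pt (cW a b) (AlgebraicClosure F) :=
    if h : ((cW a b).baseChange (AlgebraicClosure F)).toAffine.Nonsingular ρ 0 then
      (Affine.Point.some ρ 0 h : ((cW a b).baseChange (AlgebraicClosure F)).toAffine.Point) else 0
  let Θ : F × F → Coch (cW a b) := fun p σ => G p.1 σ + if H p.2 σ = 1 then 0 else T0
  refine ⟨(T ×ˢ T).image Θ, ?_, fun f hf => ?_⟩
  · refine Finset.card_image_le.trans ?_
    rw [Finset.card_product, pow_two]
  · obtain ⟨t, ht, hPt⟩ := hχ f hf
    have hex : ∃ g ∈ S, PK t (fun σ => chi' (cW a b) ρ (g σ)) := ⟨f, hf, hPt⟩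
    have hG : G t ∈ S ∧ PK t (fun σ => chi' (cW a b) ρ (G t σ)) := by
      have : G t = Classical.choose hex := dif_pos hex
      rw [this]
      exact Classical.choose_spec hex
    have hsub : f - G t ∈ S := S.sub_mem hf hG.1
    have hval : ∀ σ, f σ = (f - G t) σ + G t σ := by
      intro σ
      change f σ = f σ - G t σ + G t σ
      abel
    have hTr : ∀ σ, Tr' (cW a b) ρ ((f - G t) σ) := by
      intro σ
      have h3 : chi' (cW a b) ρ (f σ) = chi' (cW a b) ρ (G t σ) :=
        congrFun (hPt.unique hG.2) σ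
      rw [hval σ, chi'_add htwo hr (h2 _ hsub σ) (h2 _ hG.1 σ)] at h3
      have h4 : chi' (cW a b) ρ ((f - G t) σ) = 1 := mul_eq_right.1 h3
      by_contra hcon
      have h5 : chi' (cW a b) ρ ((f - G t) σ) = -1 := if_neg hcon
      rw [h5] at h4
      exact absurd h4 (by decide)
    obtain ⟨t', ht', hPt'⟩ := hψ _ hsub hTr
    have hex' : ∃ χ, PK t' χ := ⟨_, hPt'⟩
    have hH : PK t' (H t') := by
      have : H t' = Classical.choose hex' := dif_pos hex'
      rw [this]
      exact Classical.choose_spec hex'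
    have hH' := hPt'.unique hH
    refine Finset.mem_image.2 ⟨(t, t'), Finset.mem_product.2 ⟨ht, ht'⟩, ?_⟩
    funext σ
    change G t σ + (if H t' σ = 1 then 0 else T0) = f σ
    rw [hval σ, add_comm]
    congr 1
    have h6 : psi' ((f - G t) σ) = H t' σ := congrFun hH' σ
    rw [← h6]
    rcases hTr σ with h7 | ⟨h7, h8⟩
    · have h9 : (f - G t) σ = 0 := h7
      have e0 : psi' ((f - G t) σ) = 1 := if_pos h9
      rw [e0, if_pos rfl]
      exact h9.symm
    · have h9 : psi' ((f - G t) σ) = -1 := by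
        refine if_neg ?_
        intro h10
        have h11 : (f - G t) σ = (Affine.Point.some ρ 0 h7 :
          ((cW a b).baseChange (AlgebraicClosure F)).toAffine.Point) := h8
        rw [h11] at h10
        exact Affine.Point.some_ne_zero _ h10
      rw [h9, if_neg (by decide)]
      have h12 : T0 = (Affine.Point.some ρ 0 h7 :
          ((cW a b).baseChange (AlgebraicClosure F)).toAffine.Point) := dif_pos h7
      rw [h12]
      exact h8.symm

/-- The first character of a cocycle. -/
lemma chi'_coc {a b r : F} (hr : r ^ 3 + a * r + b = 0) (f : Coch (cW a b)) (hf : IsCoc (cW a b) f)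
    (h2 : ∀ σ, f σ + f σ = 0) (σ τ : Gal F) :
    chi' (cW a b) (algebraMap F (AlgebraicClosure F) r) (f (σ * τ)) =
      chi' (cW a b) (algebraMap F (AlgebraicClosure F) r) (f σ) *
        chi' (cW a b) (algebraMap F (AlgebraicClosure F) r) (f τ) := by
  have htwo : (2 : AlgebraicClosure F) ≠ 0 := two_ne_zero
  rw [hf.2, chi'_add htwo hr (h2 σ) (by rw [← map_add, h2, map_zero])]
  congr 1
  have := chi'_act (W := cW a b) σ.toAlgHom (algebraMap F (AlgebraicClosure F) r) (f τ)
  rw [show σ.toAlgHom (algebraMap F (AlgebraicClosure F) r) = algebraMap F (AlgebraicClosure F) r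
    from σ.commutes r] at this
  exact this

/-- The second character of a cocycle. -/
lemma psi'_coc {a b r : F} (f : Coch (cW a b)) (hf : IsCoc (cW a b) f)
    (hT : ∀ σ, Tr' (cW a b) (algebraMap F (AlgebraicClosure F) r) (f σ)) (σ τ : Gal F) :
    psi' (f (σ * τ)) = psi' (f σ) * psi' (f τ) := by
  have hfix : ∀ U : Pt (cW a b) (AlgebraicClosure F),
      Tr' (cW a b) (algebraMap F (AlgebraicClosure F) r) U → act (cW a b) σ.toAlgHom U = U := by
    intro U hU
    rcases hU with rfl | ⟨h', rfl⟩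
    · exact map_zero _
    · rcases act_cases (W := cW a b) σ.toAlgHom
        (Affine.Point.some (algebraMap F (AlgebraicClosure F) r) 0 h' :
          ((cW a b).baseChange (AlgebraicClosure F)).toAffine.Point)
        with ⟨h0, -⟩ | ⟨x', y', h1, h4, e1, e2⟩
      · exact absurd h0 (Affine.Point.some_ne_zero _)
      · have e3 := some_inj (V := (cW a b).baseChange (AlgebraicClosure F)) e1
        refine e2.trans (some_congr (V := (cW a b).baseChange (AlgebraicClosure F)) ?_ ?_)
        · rw [← e3.1]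
          exact σ.commutes r
        · rw [← e3.2]
          exact map_zero σ
  rw [hf.2, hfix _ (hT τ)]
  have h1 : psi' (0 : Pt (cW a b) (AlgebraicClosure F)) = 1 := if_pos rfl
  rcases hT σ with h3 | ⟨h3, h4⟩
  · have h3' : f σ = 0 := h3
    rw [h3', zero_add, h1, one_mul]
  · rcases hT τ with h5 | ⟨h5, h6⟩
    · have h5' : f τ = 0 := h5
      rw [h5', add_zero, h1, mul_one]
    · have e4 : f σ = f τ := h4.trans h6.symm
      have e5 : f τ + f τ = 0 := (sh (a := a) (b := b) (AlgebraicClosure F)).Tr_two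
        (V := (cW a b).baseChange (AlgebraicClosure F)) (hT τ)
      have e6 : psi' (f τ) = -1 := by
        refine if_neg ?_
        intro h10
        have h11 : f τ = (Affine.Point.some _ 0 h5 :
          ((cW a b).baseChange (AlgebraicClosure F)).toAffine.Point) := h6
        rw [h11] at h10
        exact Affine.Point.some_ne_zero _ h10
      rw [e4, e5, h1, e6]
      rfl

end

end Pool.Agent.Helper45.AV
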